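import Pool.Agent.H62.LGC.EvPlace
import Pool.Agent.H17BP.MapIdeal
import Pool.Agent.H17R.Curve
import Pool.Agent.H62.SA.Defs

/-!
# LGC CurveEv: evaluation of the rational functions of a projective variety along a map

PROOF of `exists_ev`.  `x l := ratio I l i₀ : FunField I`, `v l z := (f z).rep l / (f z).rep i₀ = val f i₀ (X l) z` (`Pool/Agent/H17R/Curve.lean`).
(1) For every polynomial `A : MvPolynomial (Fin (N + 1)) ℂ` there are `n` and a form `A' ` of degree `n` (the homogenisation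
`∑ k, X i₀ ^ (n - k) * homogeneousComponent k A`, `n = A.totalDegree`, see `TrdegLt_hom` in `Pool/Agent/H17BP/TrdegLt.lean`) with
`aeval x A' = aeval x A` and `eval (v z) A' = eval (v z) A` when `(f z).rep i₀ ≠ 0` (because `x i₀ = 1`, `v i₀ z = 1`).  For a form `A'`:
`aeval x A' = 0 ↔ A' ∈ I` (search `aeval` and `ratio` in `Pool/Agent/H17LG`, `H62/FC/GradedField.lean`, `H17BP/TrdegLt.lean`),
`A' ∈ I = mapIdeal f D* ↔ ∀ z, VanishesAt A' (f z)` (`mem_mapIdeal_form`), and if not then `NonVan f A'` (`nonVan_or`).  So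
`aeval x A = 0 → ∀ s, ∀ᶠ z in 𝓝[≠] s, eval (v z) A = 0` and `aeval x A ≠ 0 → ∀ s, ∀ᶠ z in 𝓝[≠] s, eval (v z) A ≠ 0`.
(2) Every `g : FunField I` is `aeval x A / aeval x B` with `aeval x B ≠ 0` (`FunField I = functionField I` is generated by the ratios
`coordFun i / coordFun j = x i / x j`: `IntermediateField.adjoin_induction`, or the lemma of `Pool/Agent/H17GT` about it).
(3) `ψ g z := eval (v z) A / eval (v z) B` with chosen `A`, `B`.  If also `g = aeval x A' / aeval x B'` then `A B' - A' B` is killed by `aeval x`, so the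
two quotients agree near every `s` (punctured).  `Ev` follows.  Meromorphy: `v l` is meromorphic (`val_meroPunct`, or zero), polynomials in them.
PROOF of `not_onBd`.  Let `E` be under `s`, `OnBd I G E`: `j` with `X j ∉ I`, `0 ≤ E.ord (ratio I l j)` for all `l`,
`0 < E.ord (aeval (fun i => ratio I i j) (G m))` for all `m`.  Let `φ` be a lift of `f` near `s`, `φ s ≠ 0`.  `ψ (ratio I l j)` is eventually
`φ l / φ j` (`ratio I l j = ratio I l i₀ / ratio I j i₀`, `Ev.div`).  If `φ s j = 0`, choose `l` with `φ s l ≠ 0`: the order of `φ l / φ j` is negative: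
contradiction.  So `φ s j ≠ 0` and the order of `G m (φ) / φ j ^ e` is positive for all `m`, so `G m (φ s) = 0` for all `m`: contradiction to
`f s ∈ locVar I G`.
-/

set_option autoImplicit false

open Topology Filter MvPolynomial
open Pool.Agent.H17 (PN VanishesAt HolomorphicInto puncturedDisc)
open Pool.Agent.H23.Fano (PrimeDivisorOver)
open Pool.Agent.H17LG.Variety (FunField ratio)
open Pool.Agent.H17GT (coordFun functionField)
open Pool.Agent.H17BP (mapIdeal)
open Pool.Agent.H62.FC (Homog)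
open Pool.Agent.H62.SA (locVar OnBd)

noncomputable section

namespace Pool.Agent.H62.LGC

variable {N : ℕ} {I : Ideal (MvPolynomial (Fin (N + 1)) ℂ)} {f : ℂ → PN N}

/-! ### Auxiliary lemmas for `exists_ev` -/

private theorem CurveEv_scale {K : Type} [Field K] [Algebra ℂ K] {G : MvPolynomial (Fin (N + 1)) ℂ} {n : ℕ}
    (hG : G.IsHomogeneous n) (c : K) (x : Fin (N + 1) → K) :
    aeval (fun i => c * x i) G = c ^ n * aeval x G := by
  rw [aeval_def, aeval_def, eval₂_eq, eval₂_eq, Finset.mul_sum]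
  refine Finset.sum_congr rfl fun m hm => ?_
  have h5 : ∑ i ∈ m.support, m i = n := by
    have := hG (mem_support_iff.1 hm)
    rw [Finsupp.weight_apply, Finsupp.sum] at this
    simpa using this
  simp only [mul_pow, Finset.prod_mul_distrib]
  rw [Finset.prod_pow_eq_pow_sum, h5]
  ring

private theorem CurveEv_coordFun (P : Ideal (MvPolynomial (Fin (N + 1)) ℂ)) [P.IsPrime]
    (G : MvPolynomial (Fin (N + 1)) ℂ) : aeval (coordFun P) G = 0 ↔ G ∈ P := by
  have h7 : aeval (coordFun P) G =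
      algebraMap (MvPolynomial (Fin (N + 1)) ℂ ⧸ P)
        (FractionRing (MvPolynomial (Fin (N + 1)) ℂ ⧸ P)) (Ideal.Quotient.mk P G) := by
    have h8 : (aeval (coordFun P) : MvPolynomial (Fin (N + 1)) ℂ →ₐ[ℂ] _) =
        (IsScalarTower.toAlgHom ℂ (MvPolynomial (Fin (N + 1)) ℂ ⧸ P)
          (FractionRing (MvPolynomial (Fin (N + 1)) ℂ ⧸ P))).comp (Ideal.Quotient.mkₐ ℂ P) := by
      apply MvPolynomial.algHom_ext
      intro i
      rw [aeval_X]
      rfl
    rw [h8]
    rfl
  rw [h7, ← Ideal.Quotient.eq_zero_iff_mem]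
  exact map_eq_zero_iff _ (IsFractionRing.injective (MvPolynomial (Fin (N + 1)) ℂ ⧸ P)
    (FractionRing (MvPolynomial (Fin (N + 1)) ℂ ⧸ P)))

/-- The generic point, normalised at a coordinate. -/
private theorem CurveEv_point (P : Ideal (MvPolynomial (Fin (N + 1)) ℂ)) [P.IsPrime] {j₀ : Fin (N + 1)}
    (hj : (X j₀ : MvPolynomial (Fin (N + 1)) ℂ) ∉ P) :
    ratio P j₀ j₀ = 1 ∧ IntermediateField.adjoin ℂ (Set.range fun l => ratio P l j₀) = ⊤ ∧
      ∀ (n : ℕ) (G : MvPolynomial (Fin (N + 1)) ℂ), G.IsHomogeneous n →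
        (aeval (fun l => ratio P l j₀) G = 0 ↔ G ∈ P) := by
  classical
  have hj₀ : coordFun P j₀ ≠ 0 := by
    intro h0
    apply hj
    rw [← CurveEv_coordFun, aeval_X]
    exact h0
  have hmem : ∀ i, coordFun P i / coordFun P j₀ ∈ functionField P := fun i =>
    IntermediateField.subset_adjoin _ _ ⟨i, j₀, rfl⟩
  obtain ⟨x, hx⟩ : ∃ x : Fin (N + 1) → functionField P, x = fun i => ⟨coordFun P i / coordFun P j₀, hmem i⟩ :=
    ⟨_, rfl⟩
  have hxr : (fun l => ratio P l j₀) = x := hx.symm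
  rw [hxr]
  have hx1 : x j₀ = 1 := by
    apply Subtype.ext
    rw [hx]
    exact div_self hj₀
  have hratio : ∀ i j, ((x i / x j : functionField P) :
      FractionRing (MvPolynomial (Fin (N + 1)) ℂ ⧸ P)) = coordFun P i / coordFun P j := by
    intro i j
    have h1 : ((x i / x j : functionField P) :
      FractionRing (MvPolynomial (Fin (N + 1)) ℂ ⧸ P)) =
        (coordFun P i / coordFun P j₀) / (coordFun P j / coordFun P j₀) := by
      rw [hx]
      rfl
    rw [h1, div_div_div_cancel_right₀ hj₀]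
  have hgen : IntermediateField.adjoin ℂ {y | ∃ i j, y = x i / x j} = ⊤ := by
    rw [← IntermediateField.lift_inj, IntermediateField.lift_adjoin, IntermediateField.lift_top]
    conv_rhs => rw [functionField]
    congr 1
    ext y
    constructor
    · rintro ⟨y', ⟨i, j, rfl⟩, rfl⟩
      exact ⟨i, j, hratio i j⟩
    · rintro ⟨i, j, rfl⟩
      exact ⟨x i / x j, ⟨i, j, rfl⟩, hratio i j⟩
  refine ⟨?_, ?_, ?_⟩
  · have := congrFun hxr j₀
    exact this.trans hx1
  · change IntermediateField.adjoin ℂ (Set.range x) = ⊤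
    rw [eq_top_iff, ← hgen, IntermediateField.adjoin_le_iff]
    rintro y ⟨i, j, rfl⟩
    exact div_mem (IntermediateField.subset_adjoin _ _ ⟨i, rfl⟩)
      (IntermediateField.subset_adjoin _ _ ⟨j, rfl⟩)
  · intro n G hG
    change aeval x G = 0 ↔ G ∈ P
    have h1 : ((aeval x G : functionField P) : FractionRing (MvPolynomial (Fin (N + 1)) ℂ ⧸ P)) =
        aeval (fun i => (coordFun P j₀)⁻¹ * coordFun P i) G := by
      have h3 : ((functionField P).val (aeval x G)) =
          aeval (fun i => (functionField P).val (x i)) G := by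
        rw [← MvPolynomial.comp_aeval]
        rfl
      change (functionField P).val (aeval x G) = _
      rw [h3]
      congr 2
      funext i
      rw [hx]
      change coordFun P i / coordFun P j₀ = _
      rw [div_eq_inv_mul]
    rw [CurveEv_scale hG] at h1
    rw [← CurveEv_coordFun]
    constructor
    · intro h0
      rw [h0] at h1
      exact (mul_eq_zero.1 h1.symm).resolve_left (pow_ne_zero _ (inv_ne_zero hj₀))
    · intro h0
      apply Subtype.ext
      rw [h1, h0, mul_zero]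
      rfl

/-- Homogenisation. -/
private def CurveEv_hom (j : Fin (N + 1)) (H : MvPolynomial (Fin (N + 1)) ℂ) : MvPolynomial (Fin (N + 1)) ℂ :=
  ∑ k ∈ Finset.range (H.totalDegree + 1), X j ^ (H.totalDegree - k) * homogeneousComponent k H

private theorem CurveEv_hom_form (j : Fin (N + 1)) (H : MvPolynomial (Fin (N + 1)) ℂ) :
    (CurveEv_hom j H).IsHomogeneous H.totalDegree := by
  unfold CurveEv_hom
  apply MvPolynomial.IsHomogeneous.sum
  intro d hd
  have h1 : d ≤ H.totalDegree := Nat.lt_succ_iff.1 (Finset.mem_range.1 hd)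
  have h2 := (MvPolynomial.isHomogeneous_X_pow (R := ℂ) j (H.totalDegree - d)).mul
    (MvPolynomial.homogeneousComponent_isHomogeneous d H)
  rwa [Nat.sub_add_cancel h1] at h2

private theorem CurveEv_hom_aeval {K : Type} [Field K] [Algebra ℂ K] {x : Fin (N + 1) → K} {j : Fin (N + 1)}
    (hx : x j = 1) (H : MvPolynomial (Fin (N + 1)) ℂ) : aeval x (CurveEv_hom j H) = aeval x H := by
  unfold CurveEv_hom
  conv_rhs => rw [← MvPolynomial.sum_homogeneousComponent H]
  rw [map_sum, map_sum]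
  refine Finset.sum_congr rfl fun k _ => ?_
  rw [map_mul, map_pow, aeval_X, hx, one_pow, one_mul]

private theorem CurveEv_hom_eval {x : Fin (N + 1) → ℂ} {j : Fin (N + 1)}
    (hx : x j = 1) (H : MvPolynomial (Fin (N + 1)) ℂ) : eval x (CurveEv_hom j H) = eval x H := by
  unfold CurveEv_hom
  conv_rhs => rw [← MvPolynomial.sum_homogeneousComponent H]
  rw [map_sum, map_sum]
  refine Finset.sum_congr rfl fun k _ => ?_
  rw [map_mul, map_pow, eval_X, hx, one_pow, one_mul]

/-- The evaluation, in terms of a point of the field and a point with meromorphic coordinates. -/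
private theorem CurveEv_core {K : Type} [Field K] [Algebra ℂ K] {x : Fin (N + 1) → K}
    (hgen : IntermediateField.adjoin ℂ (Set.range x) = ⊤) {v : ℂ → Fin (N + 1) → ℂ}
    (hv : ∀ l, ∀ s ∈ puncturedDisc, MeromorphicAt (fun z => v z l) s)
    (h0 : ∀ A : MvPolynomial (Fin (N + 1)) ℂ, aeval x A = 0 → ∀ s ∈ puncturedDisc,
      ∀ᶠ z in 𝓝[≠] s, eval (v z) A = 0)
    (h1 : ∀ A : MvPolynomial (Fin (N + 1)) ℂ, aeval x A ≠ 0 → ∀ s ∈ puncturedDisc,
      ∀ᶠ z in 𝓝[≠] s, eval (v z) A ≠ 0) :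
    ∃ ψ : K → ℂ → ℂ, Ev ψ ∧ ∀ l, ∀ s ∈ puncturedDisc, ψ (x l) =ᶠ[𝓝[≠] s] fun z => v z l := by
  classical
  have hex : ∀ g : K, ∃ A B : MvPolynomial (Fin (N + 1)) ℂ, aeval x B ≠ 0 ∧
      g * aeval x B = aeval x A := by
    intro g
    have hg : g ∈ IntermediateField.adjoin ℂ (Set.range x) := by
      rw [hgen]
      exact IntermediateField.mem_top
    obtain ⟨A, B, hAB⟩ := (IntermediateField.mem_adjoin_range_iff ℂ x g).1 hg
    by_cases hB : aeval x B = 0
    · refine ⟨0, 1, ?_, ?_⟩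
      · rw [map_one]
        exact one_ne_zero
      · rw [hAB, hB, div_zero, zero_mul, map_zero]
    · refine ⟨A, B, hB, ?_⟩
      rw [hAB, div_mul_cancel₀ _ hB]
  choose A B hB hAB using hex
  have hmero : ∀ (Q : MvPolynomial (Fin (N + 1)) ℂ), ∀ s ∈ puncturedDisc,
      MeromorphicAt (fun z => eval (v z) Q) s := by
    intro Q s hs
    induction Q using MvPolynomial.induction_on with
    | C a =>
      simp only [eval_C]
      exact MeromorphicAt.const a s
    | add p q hp hq =>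
      simp only [map_add]
      exact hp.fun_add hq
    | mul_X p i hp =>
      simp only [map_mul, eval_X]
      exact hp.fun_mul (hv i s hs)
  have key : ∀ (g : K) (A' B' : MvPolynomial (Fin (N + 1)) ℂ), aeval x B' ≠ 0 →
      g * aeval x B' = aeval x A' → ∀ s ∈ puncturedDisc,
      (fun z => eval (v z) (A g) / eval (v z) (B g)) =ᶠ[𝓝[≠] s]
        fun z => eval (v z) A' / eval (v z) B' := by
    intro g A' B' hB' hAB' s hs
    have h2 : aeval x (A g * B' - A' * B g) = 0 := by
      rw [map_sub, map_mul, map_mul, ← hAB g, ← hAB']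
      ring
    filter_upwards [h0 _ h2 s hs, h1 _ (hB g) s hs, h1 _ hB' s hs] with z h3 h4 h5
    rw [map_sub, map_mul, map_mul] at h3
    rw [div_eq_div_iff h4 h5]
    exact sub_eq_zero.1 h3
  refine ⟨fun g z => eval (v z) (A g) / eval (v z) (B g), ⟨?_, ?_, ?_, ?_⟩, ?_⟩
  · intro g s hs
    exact (hmero (A g) s hs).fun_div (hmero (B g) s hs)
  · intro c s hs
    refine (key (algebraMap ℂ K c) (C c) 1 ?_ ?_ s hs).trans ?_
    · rw [map_one]
      exact one_ne_zero
    · rw [map_one, mul_one, aeval_C]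
    · filter_upwards with z
      rw [eval_C, map_one, div_one]
  · intro g h s hs
    refine (key (g + h) (A g * B h + A h * B g) (B g * B h) ?_ ?_ s hs).trans ?_
    · rw [map_mul]
      exact mul_ne_zero (hB g) (hB h)
    · rw [map_mul, map_add, map_mul, map_mul, ← hAB g, ← hAB h]
      ring
    · filter_upwards [h1 _ (hB g) s hs, h1 _ (hB h) s hs] with z h3 h4
      rw [map_add, map_mul, map_mul, map_mul]
      field_simp
  · intro g h s hs
    refine (key (g * h) (A g * A h) (B g * B h) ?_ ?_ s hs).trans ?_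
    · rw [map_mul]
      exact mul_ne_zero (hB g) (hB h)
    · rw [map_mul, map_mul, ← hAB g, ← hAB h]
      ring
    · filter_upwards with z
      rw [map_mul, map_mul, mul_div_mul_comm]
  · intro l s hs
    refine (key (x l) (X l) 1 ?_ ?_ s hs).trans ?_
    · rw [map_one]
      exact one_ne_zero
    · rw [map_one, mul_one, aeval_X]
    · filter_upwards with z
      rw [eval_X, map_one, div_one]

theorem exists_ev [I.IsPrime] (hI : Homog I) (hf : HolomorphicInto f puncturedDisc) (hfI : mapIdeal f puncturedDisc = I)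
    {i₀ : Fin (N + 1)} (hi₀ : (X i₀ : MvPolynomial (Fin (N + 1)) ℂ) ∉ I) :
    ∃ ψ : FunField I → ℂ → ℂ, Ev ψ ∧ ∀ l, ∀ s ∈ puncturedDisc,
      ψ (ratio I l i₀) =ᶠ[𝓝[≠] s] fun z => (f z).rep l / (f z).rep i₀ := by
  classical
  obtain ⟨hx1, hgen, hker⟩ := CurveEv_point I hi₀
  have hform : ∀ {d : ℕ} {Q : MvPolynomial (Fin (N + 1)) ℂ}, Q.IsHomogeneous d →
      (Q ∈ I ↔ ∀ z ∈ puncturedDisc, VanishesAt Q (f z)) := by
    intro d Q hQ
    rw [← hfI]
    exact Pool.Agent.H17BP.mem_mapIdeal_form hQ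
  have hnv : ∀ {d : ℕ} {Q : MvPolynomial (Fin (N + 1)) ℂ}, Q.IsHomogeneous d → Q ∉ I →
      Pool.Agent.H17R.NonVan f Q := by
    intro d Q hQ hQI
    rcases Pool.Agent.H17R.nonVan_or hf hQ with h | h
    · exact absurd ((hform hQ).2 h) hQI
    · exact h
  have hni := hnv (isHomogeneous_X ℂ i₀) hi₀
  have hev : ∀ s ∈ puncturedDisc, ∀ᶠ z in 𝓝[≠] s, (f z).rep i₀ ≠ 0 := by
    intro s hs
    filter_upwards [hni s hs] with z hz h0
    apply hz
    change eval (f z).rep (X i₀) = 0
    rw [eval_X]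
    exact h0
  have hopen : IsOpen puncturedDisc := Metric.isOpen_ball.sdiff isClosed_singleton
  have hD : ∀ s ∈ puncturedDisc, ∀ᶠ z in 𝓝[≠] s, z ∈ puncturedDisc := by
    intro s hs
    have h : ∀ᶠ z in 𝓝 s, z ∈ puncturedDisc := hopen.mem_nhds hs
    exact h.filter_mono nhdsWithin_le_nhds
  have hDn : ∀ s ∈ puncturedDisc, 0 < ‖s‖ ∧ ‖s‖ < 1 := by
    rintro s ⟨h1, h2⟩
    exact ⟨norm_pos_iff.2 h2, mem_ball_zero_iff.1 h1⟩
  obtain ⟨v, hvdef⟩ : ∃ v : ℂ → Fin (N + 1) → ℂ, v = fun z l => (f z).rep l / (f z).rep i₀ := ⟨_, rfl⟩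
  have hval : ∀ (A : MvPolynomial (Fin (N + 1)) ℂ) (z : ℂ), (f z).rep i₀ ≠ 0 →
      (eval (v z) A = 0 ↔ VanishesAt (CurveEv_hom i₀ A) (f z)) := by
    intro A z hz
    have h1 : v z i₀ = 1 := by
      rw [hvdef]
      exact div_self hz
    rw [← CurveEv_hom_eval h1]
    have h2 := Pool.Agent.H17R.val_eq (f := f) (CurveEv_hom_form i₀ A) hz
    have h3 : eval (v z) (CurveEv_hom i₀ A) = Pool.Agent.H17R.val f i₀ (CurveEv_hom i₀ A) z := by
      rw [hvdef]
      rfl
    rw [h3, h2, div_eq_zero_iff]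
    constructor
    · rintro (h | h)
      · exact h
      · exact absurd h (pow_ne_zero _ hz)
    · intro h
      exact Or.inl h
  have hcore := CurveEv_core (x := fun l => ratio I l i₀) hgen (v := v) ?_ ?_ ?_
  · obtain ⟨ψ, hψ, hψl⟩ := hcore
    refine ⟨ψ, hψ, fun l s hs => (hψl l s hs).trans ?_⟩
    rw [hvdef]
  · intro l s hs
    by_cases hl : (X l : MvPolynomial (Fin (N + 1)) ℂ) ∈ I
    · have h1 := (hform (isHomogeneous_X ℂ l)).1 hl
      refine (MeromorphicAt.const (0 : ℂ) s).congr ?_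
      filter_upwards [hD s hs] with z hz
      have h2 : eval (f z).rep (X l) = 0 := h1 z hz
      rw [eval_X] at h2
      rw [hvdef]
      change 0 = (f z).rep l / (f z).rep i₀
      rw [h2, zero_div]
    · have h1 := Pool.Agent.H17R.val_meroPunct hf (isHomogeneous_X ℂ l) (hnv (isHomogeneous_X ℂ l) hl) hni
      have h2 := h1.mero s (hDn s hs).1 (hDn s hs).2
      have h3 : (fun z => v z l) = Pool.Agent.H17R.val f i₀ (X l) := by
        funext z
        rw [hvdef]
        unfold Pool.Agent.H17R.val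
        rw [eval_X]
      rw [h3]
      exact h2
  · intro A hA s hs
    rw [← CurveEv_hom_aeval (x := fun l => ratio I l i₀) hx1 A, hker _ _ (CurveEv_hom_form i₀ A), hform (CurveEv_hom_form i₀ A)] at hA
    filter_upwards [hev s hs, hD s hs] with z h1 h2
    rw [hval A z h1]
    exact hA z h2
  · intro A hA s hs
    have h2 : CurveEv_hom i₀ A ∉ I := by
      intro h3
      apply hA
      rw [← CurveEv_hom_aeval (x := fun l => ratio I l i₀) hx1 A]
      exact (hker _ _ (CurveEv_hom_form i₀ A)).2 h3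
    filter_upwards [hev s hs, hnv (CurveEv_hom_form i₀ A) h2 s hs] with z h3 h4 h5
    exact h4 ((hval A z h3).1 h5)

private theorem CE2_nonneg {K : Type} [Field K] [Algebra ℂ K] {ψ : K → ℂ → ℂ} (h : Ev ψ) {s : ℂ}
    (hs : s ∈ puncturedDisc) {E : PrimeDivisorOver K 1} (hE : Under ψ s E) {g : K} (hg : 0 ≤ E.ord g) :
    0 ≤ meromorphicOrderAt (ψ g) s := by
  by_cases h0 : g = 0
  · subst h0
    rw [meromorphicOrderAt_eq_top_iff.2 (h.zero hs)]
    exact le_top
  · obtain ⟨e, he, hU⟩ := hE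
    obtain ⟨n, hn, ho⟩ := hU g h0
    rw [hn] at hg
    have hn0 : (0 : ℤ) ≤ n := by exact_mod_cast hg
    rw [ho]
    exact_mod_cast mul_nonneg (by positivity : (0 : ℤ) ≤ e) hn0

private theorem CE2_pos {K : Type} [Field K] [Algebra ℂ K] {ψ : K → ℂ → ℂ} (h : Ev ψ) {s : ℂ}
    (hs : s ∈ puncturedDisc) {E : PrimeDivisorOver K 1} (hE : Under ψ s E) {g : K} (hg : 0 < E.ord g) :
    0 < meromorphicOrderAt (ψ g) s := by
  by_cases h0 : g = 0
  · subst h0
    rw [meromorphicOrderAt_eq_top_iff.2 (h.zero hs)]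
    exact WithTop.coe_lt_top 0
  · obtain ⟨e, he, hU⟩ := hE
    obtain ⟨n, hn, ho⟩ := hU g h0
    rw [hn] at hg
    have hn0 : (0 : ℤ) < n := by exact_mod_cast hg
    rw [ho]
    have he' : (0 : ℤ) < e := by exact_mod_cast he
    exact_mod_cast mul_pos he' hn0

theorem not_onBd [I.IsPrime] (hI : Homog I) (hf : HolomorphicInto f puncturedDisc) {i₀ : Fin (N + 1)}
    (hi₀ : (X i₀ : MvPolynomial (Fin (N + 1)) ℂ) ∉ I) {ψ : FunField I → ℂ → ℂ} (h : Ev ψ)
    (hψ : ∀ l, ∀ s ∈ puncturedDisc, ψ (ratio I l i₀) =ᶠ[𝓝[≠] s] fun z => (f z).rep l / (f z).rep i₀)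
    {r : ℕ} {G : Fin r → MvPolynomial (Fin (N + 1)) ℂ} {e : Fin r → ℕ} (hG : ∀ m, (G m).IsHomogeneous (e m)) {s : ℂ}
    (hs : s ∈ puncturedDisc) (hfs : f s ∈ locVar I G) {E : PrimeDivisorOver (FunField I) 1} (hE : Under ψ s E) :
    ¬ OnBd I G E := by
  rintro ⟨j, hj, hreg, hpos⟩
  have hc₀ : Pool.Agent.H17GT.coordFun I i₀ ≠ 0 := by
    intro h0
    apply hi₀
    unfold Pool.Agent.H17GT.coordFun at h0
    rw [← Ideal.Quotient.eq_zero_iff_mem]
    exact (IsFractionRing.injective (MvPolynomial (Fin (N + 1)) ℂ ⧸ I)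
      (FractionRing (MvPolynomial (Fin (N + 1)) ℂ ⧸ I))) (h0.trans (map_zero _).symm)
  -- the local lift
  obtain ⟨φ, hφ, hfφ⟩ := hf s hs
  obtain ⟨hφs, hfs'⟩ := hfφ.self_of_nhds
  have hφc : ∀ l, AnalyticAt ℂ (fun z => φ z l) s := fun l => (analyticAt_pi_iff.1 hφ) l
  have hrep : ∀ l, ψ (ratio I l i₀) =ᶠ[𝓝[≠] s] fun z => φ z l / φ z i₀ := by
    intro l
    filter_upwards [hψ l s hs, hfφ.filter_mono nhdsWithin_le_nhds] with z hz hz'
    obtain ⟨hne, hfz⟩ := hz'
    obtain ⟨a, ha, hrepz⟩ := Pool.Agent.H17.exists_smul_rep (φ z) hne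
    rw [hz, hfz, hrepz]
    show a * φ z l / (a * φ z i₀) = φ z l / φ z i₀
    exact mul_div_mul_left _ _ ha
  have hφne : ∀ l, Pool.Agent.H17GT.coordFun I l ≠ 0 → ∀ᶠ z in 𝓝[≠] s, φ z l ≠ 0 := by
    intro l hl
    have hr : ratio I l i₀ ≠ 0 := by
      intro h0
      have h1 : Pool.Agent.H17GT.coordFun I l / Pool.Agent.H17GT.coordFun I i₀ = 0 := congrArg Subtype.val h0
      exact (div_ne_zero hl hc₀) h1
    filter_upwards [h.ne_zero hr hs, hrep l] with z h1 h2 h3
    rw [h2, h3, zero_div] at h1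
    exact h1 rfl
  have hrepj : ∀ l, ψ (ratio I l j) =ᶠ[𝓝[≠] s] fun z => φ z l / φ z j := by
    intro l
    have hr : ratio I j i₀ ≠ 0 := by
      intro h0
      have h1 : Pool.Agent.H17GT.coordFun I j / Pool.Agent.H17GT.coordFun I i₀ = 0 := congrArg Subtype.val h0
      exact (div_ne_zero hj hc₀) h1
    have heq : ratio I l j = ratio I l i₀ / ratio I j i₀ := by
      apply Subtype.ext
      show Pool.Agent.H17GT.coordFun I l / Pool.Agent.H17GT.coordFun I j =
        (Pool.Agent.H17GT.coordFun I l / Pool.Agent.H17GT.coordFun I i₀) /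
          (Pool.Agent.H17GT.coordFun I j / Pool.Agent.H17GT.coordFun I i₀)
      field_simp
    rw [heq]
    filter_upwards [h.div (ratio I l i₀) hr hs, hrep l, hrep j, hφne i₀ hc₀] with z h1 h2 h3 h4
    rw [h1, h2, h3]
    field_simp
  have hne : (𝓝[≠] s).NeBot := inferInstance
  have hcont : ∀ l, Tendsto (fun z => φ z l) (𝓝[≠] s) (𝓝 (φ s l)) := fun l =>
    (hφc l).continuousAt.tendsto.mono_left nhdsWithin_le_nhds
  by_cases hφj : φ s j = 0
  · obtain ⟨l, hl⟩ : ∃ l, φ s l ≠ 0 := by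
      by_contra hcon
      push Not at hcon
      exact hφs (funext hcon)
    obtain ⟨c, hc⟩ := tendsto_nhds_of_meromorphicOrderAt_nonneg (h.mero (ratio I l j) s hs)
      (CE2_nonneg h hs hE (hreg l))
    have h1 : Tendsto (fun z => ψ (ratio I l j) z * φ z j) (𝓝[≠] s) (𝓝 (c * φ s j)) := hc.mul (hcont j)
    have h2 : (fun z => ψ (ratio I l j) z * φ z j) =ᶠ[𝓝[≠] s] fun z => φ z l := by
      filter_upwards [hrepj l, hφne j hj] with z h3 h4
      rw [h3, div_mul_cancel₀ _ h4]
    have h3 := tendsto_nhds_unique (h1.congr' h2) (hcont l)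
    rw [hφj, mul_zero] at h3
    exact hl h3.symm
  · obtain ⟨m, hm⟩ := hfs.2
    apply hm
    have han : AnalyticAt ℂ (fun z => MvPolynomial.eval (fun l => φ z l / φ z j) (G m)) s := by
      have h1 := AnalyticAt.aeval_mvPolynomial (𝕜 := ℂ) (A := ℂ) (B := ℂ) (f := fun z l => φ z l / φ z j)
        (fun l => (hφc l).div (hφc j) hφj) (G m)
      simpa [MvPolynomial.aeval_eq_eval] using h1
    have h1 : Tendsto (ψ (aeval (fun i => ratio I i j) (G m))) (𝓝[≠] s) (𝓝 0) :=
      tendsto_zero_of_meromorphicOrderAt_pos (CE2_pos h hs hE (hpos m))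
    have h2 : ψ (aeval (fun i => ratio I i j) (G m)) =ᶠ[𝓝[≠] s]
        fun z => MvPolynomial.eval (fun l => φ z l / φ z j) (G m) := by
      have h3 : ∀ᶠ z in 𝓝[≠] s, ∀ l, ψ (ratio I l j) z = φ z l / φ z j :=
        Filter.eventually_all.2 fun l => hrepj l
      filter_upwards [h.aeval (fun i => ratio I i j) (G m) hs, h3] with z h4 h5
      rw [h4]
      congr 2
      funext l
      exact h5 l
    have h3 := tendsto_nhds_unique (h1.congr' h2)
      (han.continuousAt.tendsto.mono_left nhdsWithin_le_nhds)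
    have h4 : (fun l => φ s l / φ s j) = fun l => (φ s j)⁻¹ * φ s l := by
      funext l
      rw [div_eq_inv_mul]
    rw [h4, Pool.Agent.H17.eval_smul_of_isHomogeneous (hG m)] at h3
    have h5 := (mul_eq_zero.1 h3.symm).resolve_left (pow_ne_zero _ (inv_ne_zero hφj))
    rw [hfs', Pool.Agent.H17.vanishesAt_mk_iff (hG m)]
    exact h5

end Pool.Agent.H62.LGC
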