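import Pool.Agent.H62.LGC.Main
import Pool.Agent.H62.LGC.CurveEv
import Pool.Agent.H17BP.Same
import Pool.Agent.H17R.Brody
import Pool.Agent.H17R.Point
import Pool.Agent.H62.FC.Extend

/-!
# LGC Final: curves of log general type

Holomorphic maps from the punctured disc to a curve of log general type extend, and the entire curves in it are constant.
-/

set_option autoImplicit false

open Topology Filter MvPolynomial
open Pool.Agent.H17 (PN VanishesAt ZariskiClosedIn HolomorphicInto puncturedDisc)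
open Pool.Agent.H17LG.Variety (FunField ratio IsLogGeneralType)
open Pool.Agent.H17BP (mapIdeal mapIdeal_isPrime exists_X_notMem mem_mapIdeal_form le_mapIdeal mapIdeal_homog trdeg_lt
  eq_of_trdeg_zero mem_variety_mapIdeal isPreconnected_puncturedDisc variety)
open Pool.Agent.H62.FC (Homog exists_fin_basis)
open Pool.Agent.H62.SA (locVar OnBd)

noncomputable section

namespace Pool.Agent.H62.LGC

variable {N : ℕ} {I : Ideal (MvPolynomial (Fin (N + 1)) ℂ)} {f : ℂ → PN N}

theorem isOpen_puncturedDisc : IsOpen puncturedDisc := Metric.isOpen_ball.sdiff isClosed_singleton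

theorem eventually_mem {s : ℂ} (hs : s ∈ puncturedDisc) : ∀ᶠ z in 𝓝[≠] s, z ∈ puncturedDisc := by
  have h : ∀ᶠ z in 𝓝 s, z ∈ puncturedDisc := isOpen_puncturedDisc.mem_nhds hs
  exact h.filter_mono nhdsWithin_le_nhds

theorem eventually_mem_zero : ∀ᶠ z in 𝓝[≠] (0 : ℂ), z ∈ puncturedDisc := by
  have h1 : ∀ᶠ z in 𝓝 (0 : ℂ), z ∈ Metric.ball (0 : ℂ) 1 := Metric.ball_mem_nhds (0 : ℂ) one_pos
  filter_upwards [h1.filter_mono nhdsWithin_le_nhds, self_mem_nhdsWithin] with z h2 h3
  exact ⟨h2, h3⟩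

/-- **Holomorphic maps from the punctured disc to a curve of log general type extend.** -/
theorem picard_of_logGeneralType [I.IsPrime] (hI : Homog I) (hz : ∃ z : Fin 1 → FunField I, IsTranscendenceBasis ℂ z)
    {s : ℕ} {G : Fin s → MvPolynomial (Fin (N + 1)) ℂ} (hG : ∀ m, ∃ n, (G m).IsHomogeneous n)
    (hgt : IsLogGeneralType (K := FunField I) (k := 1) (OnBd I G)) (hf : HolomorphicInto f puncturedDisc)
    (hfI : ∀ z ∈ puncturedDisc, f z ∈ locVar I G) :
    ∃ g : ℂ → PN N, HolomorphicInto g (Metric.ball 0 1) ∧ ∀ z ∈ puncturedDisc, g z = f z := by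
  classical
  have hess : Algebra.EssFiniteType ℂ (FunField I) := Pool.Agent.H17GT.essFiniteType_functionField I
  obtain ⟨z₁, hz₁⟩ : puncturedDisc.Nonempty := ⟨1 / 2, by
    constructor
    · simp; norm_num
    · simp⟩
  by_cases hconst : ∀ z ∈ puncturedDisc, f z = f z₁
  · refine ⟨fun _ => f z₁, ?_, fun z hz => (hconst z hz).symm⟩
    intro z _
    refine ⟨fun _ => (f z₁).rep, analyticAt_const, Eventually.of_forall fun w => ⟨(f z₁).rep_nonzero, ?_⟩⟩
    rw [Projectivization.mk_rep]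
  push Not at hconst
  obtain ⟨z₂, hz₂, hne⟩ := hconst
  set J := mapIdeal f puncturedDisc with hJ
  have hJp : J.IsPrime := mapIdeal_isPrime isOpen_puncturedDisc isPreconnected_puncturedDisc ⟨z₁, hz₁⟩ hf
  have hJX : ∃ i, (X i : MvPolynomial (Fin (N + 1)) ℂ) ∉ J := exists_X_notMem ⟨z₁, hz₁⟩
  have hIJ : I ≤ J := le_mapIdeal hI fun z hz => ⟨(hfI z hz).1, fun m => m.elim0⟩
  have hJI : J ≤ I := by
    by_contra hcon
    obtain ⟨w, hw⟩ := exists_fin_basis (P := J) hJX
    have hlt : w < 1 := trdeg_lt hI mapIdeal_homog hIJ hcon hJX hz hw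
    have hw0 : w = 0 := by omega
    subst hw0
    exact hne (eq_of_trdeg_zero mapIdeal_homog hJX hw _ (mem_variety_mapIdeal hz₂) _ (mem_variety_mapIdeal hz₁))
  have hfI' : mapIdeal f puncturedDisc = I := le_antisymm hJI hIJ
  obtain ⟨i₀, hi₀⟩ := hJX
  have hi₀I : (X i₀ : MvPolynomial (Fin (N + 1)) ℂ) ∉ I := fun h => hi₀ (hIJ h)
  obtain ⟨ψ, hψ, hψr⟩ := exists_ev hI hf hfI' hi₀I
  choose e he using hG
  have hB : ∀ s ∈ puncturedDisc, ∀ E, Under ψ s E → ¬ OnBd I G E := fun s hs E hE =>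
    not_onBd hI hf hi₀I hψ hψr he hs (hfI s hs) hE
  have hrep : ∀ l, Pool.Agent.H62.FC.PunctMero fun z => (f z).rep l / (f z).rep i₀ := by
    intro l
    obtain ⟨v, hv, hve⟩ := punctMero_all hz hψ hgt hB (ratio I l i₀)
    refine ⟨v, hv, ?_⟩
    filter_upwards [hve, eventually_mem_zero] with z h1 h2
    exact (hψr l z h2).symm.trans h1
  refine Pool.Agent.H62.FC.exists_extension hf (i₀ := i₀) ?_ hrep
  filter_upwards [eventually_mem_zero] with z hz
  have h1 : ∀ᶠ ζ in 𝓝[≠] z, ψ (ratio I i₀ i₀) ζ ≠ 0 := by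
    refine hψ.ne_zero ?_ hz
    rw [Pool.Agent.H17R.ratio_self (Pool.Agent.H17R.coordFun_ne_zero_iff.2 hi₀I)]
    exact one_ne_zero
  filter_upwards [h1, hψr i₀ z hz] with ζ h2 h3 h4
  rw [h3, h4, div_zero] at h2
  exact h2 rfl

/-- **The entire curves in a curve of log general type are constant.** -/
theorem const_of_logGeneralType [I.IsPrime] (hI : Homog I) (hz : ∃ z : Fin 1 → FunField I, IsTranscendenceBasis ℂ z)
    {s : ℕ} {G : Fin s → MvPolynomial (Fin (N + 1)) ℂ} (hG : ∀ m, ∃ n, (G m).IsHomogeneous n)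
    (hgt : IsLogGeneralType (K := FunField I) (k := 1) (OnBd I G)) (hf : HolomorphicInto f Set.univ)
    (hfI : ∀ z, f z ∈ locVar I G) (z w : ℂ) : f z = f w := by
  by_contra hne
  have hΞ : ZariskiClosedIn (locVar I G) (∅ : Set (PN N)) := by
    refine ⟨{1}, ?_, ?_⟩
    · rintro P' hP'
      rw [Set.mem_singleton_iff.1 hP']
      exact ⟨0, isHomogeneous_one _ _⟩
    · ext x
      simp only [Set.mem_empty_iff_false, false_iff, Set.mem_ofPred_eq, not_and]
      intro _ h
      have h1 := h 1 rfl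
      unfold VanishesAt at h1
      rw [map_one] at h1
      exact one_ne_zero h1
  exact Pool.Agent.H17R.brody_of_picard hΞ (fun f hf hfX _ => picard_of_logGeneralType hI hz hG hgt hf hfX) hf hfI
    ⟨z, w, hne⟩ z

end Pool.Agent.H62.LGC
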