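import Pool.Agent.H17LG.Variety
import Pool.Agent.H62.FC.Place

/-!
# LGC Dom: a place which dominates a subring

`K` is a function field of transcendence degree one over `ℂ`.  PROOF of `exists_dom`: `y ∈ J`, `y ≠ 0`; `(y : K)` is transcendental
over `ℂ` (otherwise it is a constant `c ≠ 0`, `ℂ` being algebraically closed, hence a unit of `A`, and `J = ⊤`).  Let `M` be a maximal ideal
of `A` which contains `J`.  By `LocalSubring.exists_le_valuationSubring` (Mathlib, `RingTheory/Valuation/LocalSubring.lean`, applied to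
`LocalSubring.ofPrime A.toSubring M`) there is a valuation subring `V` of `K` with `A ⊆ V` and `M` in the maximal ideal of `V`.
Let `B` be the integral closure of `ℂ[y] = Algebra.adjoin ℂ {y}` (or of `Polynomial ℂ`, mapped to `K` by `X ↦ y`, with the algebra
structure `(Polynomial.aeval y).toAlgebra`) in `K`; `K` is finite over `ℂ(y)` (`EssFiniteType` and algebraic because the transcendence
degree is one), so `B` is a Dedekind domain with fraction field `K` (`integralClosure.isDedekindDomain`,
`integralClosure.isFractionRing_of_finite_extension`).  `B ⊆ V`, because `V` is integrally closed.  `p := (maximal ideal of V) ∩ B` is a prime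
ideal, not zero because it contains `y`: a `HeightOneSpectrum`.  The valuation of `p`, as an `AddValuation` (`Place_add`, `Place_phi` of
`Pool/Agent/H62/FC/Place.lean`, used as in `exists_place`), gives `E`; `residue_trdeg` for `n = 1` is about `Fin 0` (a nonzero polynomial in no
variables is a nonzero constant, its order is `0` by `ord_const` for `c` and `c⁻¹`).  If `a ∈ V` and `E.ord a < 0` then `a⁻¹ = b / s` with
`b ∈ p`, `s ∈ B ∖ p`, so `a⁻¹` is in the maximal ideal of `V`: contradiction.  So `E.ord a ≥ 0` for `a ∈ V`, and `E.ord a > 0` for `a` in the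
maximal ideal of `V` (if `E.ord a = 0`, `a ≠ 0`, then `a⁻¹ = b / s` with `s ∉ p`, so `a⁻¹ ∈ V`: contradiction).
-/

set_option autoImplicit false

open Pool.Agent.H23.Fano (PrimeDivisorOver)

noncomputable section

namespace Pool.Agent.H62.LGC

variable {K : Type} [Field K] [Algebra ℂ K]

open Pool.Agent.H62.FC in
private lemma DomX_place {B : Type} [CommRing B] [IsDedekindDomain B] [Algebra B K]
    [IsFractionRing B K] (V : ValuationSubring K) (hB : ∀ b : B, algebraMap B K b ∈ V)
    (hc : ∀ c : ℂ, ∃ b : B, algebraMap B K b = algebraMap ℂ K c) (y : B) (hy0 : y ≠ 0)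
    (hy : V.valuation (algebraMap B K y) < 1) :
    ∃ E : PrimeDivisorOver K 1, (∀ x ∈ V, 0 ≤ E.ord x) ∧
      ∀ x : K, V.valuation x < 1 → 0 < E.ord x := by
  let j : B →+* V := (algebraMap B K).codRestrict V.toSubring hB
  have hj : ∀ b : B, ((j b : V) : K) = algebraMap B K b := fun b => rfl
  let P : Ideal B := Ideal.comap j (IsLocalRing.maximalIdeal V)
  have hP : ∀ b : B, b ∈ P ↔ V.valuation (algebraMap B K b) < 1 := by
    intro b
    have : b ∈ P ↔ j b ∈ IsLocalRing.maximalIdeal V := Iff.rfl
    rw [this, ← hj, ValuationSubring.valuation_lt_one_iff]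
  have hbot : P ≠ ⊥ := by
    intro h
    apply hy0
    have : y ∈ P := (hP y).mpr hy
    rw [h] at this
    exact this
  let v : IsDedekindDomain.HeightOneSpectrum B := ⟨P, Ideal.IsPrime.comap j, hbot⟩
  have hv : ∀ b : B, v.valuation K (algebraMap B K b) < 1 ↔ V.valuation (algebraMap B K b) < 1 := by
    intro b
    rw [IsDedekindDomain.HeightOneSpectrum.valuation_lt_one_iff_mem]
    exact hP b
  have hle : ∀ b : B, V.valuation (algebraMap B K b) ≤ 1 := fun b =>
    (V.valuation_le_one_iff _).mpr (hB b)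
  -- the valuation ring of `v` is contained in `V`
  have k1 : ∀ x : K, v.valuation K x ≤ 1 → V.valuation x ≤ 1 := by
    intro x hx
    obtain ⟨b, s, hbs⟩ := v.exists_primeCompl_mul_eq_of_integer x hx
    have hs : V.valuation (algebraMap B K (s : B)) = 1 := by
      refine le_antisymm (hle _) (not_lt.mp fun h => s.2 ((hP _).mpr h))
    have := congrArg V.valuation hbs
    rw [map_mul, hs, mul_one] at this
    rw [this]
    exact hle b
  have k2 : ∀ x : K, v.valuation K x < 1 → V.valuation x < 1 := by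
    intro x hx
    obtain ⟨b, s, hbs⟩ := v.exists_primeCompl_mul_eq_of_integer x hx.le
    have hs : V.valuation (algebraMap B K (s : B)) = 1 := by
      refine le_antisymm (hle _) (not_lt.mp fun h => s.2 ((hP _).mpr h))
    have hs' : v.valuation K (algebraMap B K (s : B)) = 1 := by
      refine le_antisymm (v.valuation_le_one _) (not_lt.mp fun h => ?_)
      rw [hv, hs] at h
      exact lt_irrefl _ h
    have h1 := congrArg V.valuation hbs
    have h2 := congrArg (v.valuation K) hbs
    rw [map_mul, hs, mul_one] at h1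
    rw [map_mul, hs', mul_one] at h2
    rw [h1, ← hv, ← h2]
    exact hx
  let W : AddValuation K (WithTop ℤ) := Place_add (v.valuation K)
  have hW : ∀ x : K, W x = Place_phi (v.valuation K x) := fun x => rfl
  have n1 : ∀ x ∈ V, 0 ≤ W x := by
    intro x hx
    rw [hW, Place_phi_nonneg_iff]
    by_contra h
    push Not at h
    have h0 : v.valuation K x⁻¹ < 1 := by
      rw [map_inv₀]
      exact inv_lt_one_of_one_lt₀ h
    have h2 := k2 _ h0
    have hx0 : x ≠ 0 := by
      rintro rfl
      rw [map_zero] at h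
      exact absurd h (by simp)
    have h3 : V.valuation x ≤ 1 := (V.valuation_le_one_iff _).mpr hx
    have h4 : V.valuation x * V.valuation x⁻¹ = 1 := by
      rw [← map_mul, mul_inv_cancel₀ hx0, map_one]
    have h5 : V.valuation x * V.valuation x⁻¹ < 1 :=
      (mul_le_mul' h3 le_rfl).trans_lt (by rw [one_mul]; exact h2)
    exact absurd h4 h5.ne
  have n2 : ∀ x : K, V.valuation x < 1 → 0 < W x := by
    intro x hx
    have h1 : 0 ≤ W x := n1 x ((V.valuation_le_one_iff _).mp hx.le)
    refine lt_of_le_of_ne h1 fun h => ?_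
    by_cases hx0 : x = 0
    · rw [hx0, W.map_zero] at h
      exact absurd h (by simp)
    have h2 : W x + W x⁻¹ = 0 := by
      rw [← W.map_mul, mul_inv_cancel₀ hx0, W.map_one]
    rw [← h, zero_add] at h2
    have h3 : v.valuation K x⁻¹ ≤ 1 := by
      rw [← Place_phi_nonneg_iff, ← hW, h2]
    have h4 := k1 _ h3
    have h5 : V.valuation x * V.valuation x⁻¹ = 1 := by
      rw [← map_mul, mul_inv_cancel₀ hx0, map_one]
    have h6 : V.valuation x * V.valuation x⁻¹ < 1 :=
      (mul_le_mul' le_rfl h4).trans_lt (by rw [mul_one]; exact hx)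
    exact absurd h5 h6.ne
  have nc : ∀ c : ℂ, 0 ≤ W (algebraMap ℂ K c) := by
    intro c
    obtain ⟨b, hb⟩ := hc c
    rw [← hb]
    exact n1 _ (hB b)
  obtain ⟨π, hπ⟩ := v.valuation_exists_uniformizer K
  refine ⟨⟨W, nc, ⟨π, ?_⟩, ⟨fun _ => 0, fun _ => by simp, ?_⟩⟩, n1, n2⟩
  · rw [hW, hπ, Place_phi_exp]
    simp
  · intro p hp
    have : IsEmpty (Fin (1 - 1)) := inferInstanceAs (IsEmpty (Fin 0))
    obtain ⟨c, rfl⟩ : ∃ c : ℂ, p = MvPolynomial.C c :=
      ⟨_, MvPolynomial.eq_C_of_isEmpty p⟩
    have hc0 : c ≠ 0 := by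
      rintro rfl
      exact hp (map_zero _)
    rw [MvPolynomial.aeval_C]
    have h1 : W (algebraMap ℂ K c) + W (algebraMap ℂ K c⁻¹) = 0 := by
      rw [← W.map_mul, ← map_mul, mul_inv_cancel₀ hc0, map_one, W.map_one]
    exact ((add_eq_zero_iff_of_nonneg (nc c) (nc c⁻¹)).mp h1).1

open IntermediateField.algebraAdjoinAdjoin in
theorem exists_dom [Algebra.EssFiniteType ℂ K] (hz : ∃ z : Fin 1 → K, IsTranscendenceBasis ℂ z) (A : Subalgebra ℂ K)
    (J : Ideal A) (hJ : J ≠ ⊤) (hne : ∃ y ∈ J, y ≠ 0) :
    ∃ E : PrimeDivisorOver K 1, (∀ a ∈ A, 0 ≤ E.ord a) ∧ ∀ y ∈ J, 0 < E.ord (y : K) := by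
  obtain ⟨y, hyJ, hy0⟩ := hne
  have hyK : (y : K) ≠ 0 := fun h => hy0 (Subtype.ext h)
  -- `y` is transcendental
  have htr : Transcendental ℂ (y : K) := by
    intro halg
    have h1 := IsAlgClosed.degree_eq_one_of_irreducible ℂ (minpoly.irreducible halg.isIntegral)
    obtain ⟨c, hc⟩ := minpoly.mem_range_of_degree_eq_one ℂ (y : K) h1
    have hc0 : c ≠ 0 := by
      rintro rfl
      rw [map_zero] at hc
      exact hyK hc.symm
    apply hJ
    rw [Ideal.eq_top_iff_one]
    have h2 : (1 : A) = algebraMap ℂ A c⁻¹ * y := by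
      apply Subtype.ext
      change (1 : K) = algebraMap ℂ K c⁻¹ * (y : K)
      rw [← hc, ← map_mul, inv_mul_cancel₀ hc0, map_one]
    rw [h2]
    exact J.mul_mem_left _ hyJ
  let x : Fin 1 → K := fun _ => (y : K)
  have hx : IsTranscendenceBasis ℂ x := by
    have ha : AlgebraicIndependent ℂ x := (algebraicIndependent_singleton_iff 0).mpr htr
    obtain ⟨z, hz⟩ := hz
    refine ha.isTranscendenceBasis_of_trdeg_le_of_finite ?_
    rw [← hz.cardinalMk_eq_trdeg]
  have : Algebra.IsAlgebraic (IntermediateField.adjoin ℂ (Set.range x)) K := hx.isAlgebraic_field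
  have : Algebra.EssFiniteType (IntermediateField.adjoin ℂ (Set.range x)) K :=
    Algebra.EssFiniteType.of_comp ℂ _ K
  have : FiniteDimensional (IntermediateField.adjoin ℂ (Set.range x)) K :=
    Algebra.finite_of_essFiniteType_of_isAlgebraic
  have hyR : (y : K) ∈ Algebra.adjoin ℂ (Set.range x) := Algebra.subset_adjoin ⟨0, rfl⟩
  have hSr : Set.range x = {(y : K)} := Set.range_const
  have : IsPrincipalIdealRing (Algebra.adjoin ℂ (Set.range x)) := by
    refine IsPrincipalIdealRing.of_surjective
      (Polynomial.aeval (R := ℂ) (⟨(y : K), hyR⟩ : Algebra.adjoin ℂ (Set.range x))).toRingHom ?_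
    rintro ⟨r, hr⟩
    have hr' := hr
    rw [hSr, Algebra.adjoin_singleton_eq_range_aeval] at hr'
    obtain ⟨p, hp⟩ := hr'
    refine ⟨p, Subtype.ext ?_⟩
    have h3 := Polynomial.aeval_algHom_apply (Algebra.adjoin ℂ (Set.range x)).val
      (⟨(y : K), hyR⟩ : Algebra.adjoin ℂ (Set.range x)) p
    exact h3.symm.trans hp
  have : IsDedekindDomain (integralClosure (Algebra.adjoin ℂ (Set.range x)) K) :=
    integralClosure.isDedekindDomain (Algebra.adjoin ℂ (Set.range x))
      (IntermediateField.adjoin ℂ (Set.range x)) K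
  have : IsFractionRing (integralClosure (Algebra.adjoin ℂ (Set.range x)) K) K :=
    integralClosure.isFractionRing_of_finite_extension
      (IntermediateField.adjoin ℂ (Set.range x)) K
  obtain ⟨V, hAV, hJV⟩ := Ideal.image_subset_nonunits_valuationSubring (A := A.toSubring) J hJ
  have hAV' : ∀ a ∈ A, a ∈ V := fun a ha => hAV ha
  have hJV' : ∀ a ∈ J, V.valuation (a : K) < 1 := fun a ha =>
    (V.mem_nonunits_iff).mp (hJV ⟨a, ha, rfl⟩)
  have hRA : Algebra.adjoin ℂ (Set.range x) ≤ A := by
    refine Algebra.adjoin_le ?_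
    rw [hSr]
    rintro _ rfl
    exact y.2
  have hB : ∀ b : integralClosure (Algebra.adjoin ℂ (Set.range x)) K,
      algebraMap (integralClosure (Algebra.adjoin ℂ (Set.range x)) K) K b ∈ V := by
    rintro ⟨b, p, hp, hpb⟩
    let ι : Algebra.adjoin ℂ (Set.range x) →+* V :=
      (algebraMap (Algebra.adjoin ℂ (Set.range x)) K).codRestrict V.toSubring
        (fun r => hAV' _ (hRA r.2))
    have h1 : IsIntegral V b := by
      refine ⟨p.map ι, hp.map ι, ?_⟩
      rw [Polynomial.eval₂_map]
      exact hpb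
    obtain ⟨c, hc⟩ := IsIntegrallyClosed.isIntegral_iff.mp h1
    change b ∈ V
    rw [← hc]
    exact c.2
  obtain ⟨E, h1, h2⟩ := DomX_place (B := integralClosure (Algebra.adjoin ℂ (Set.range x)) K) V hB
    (fun c => ⟨algebraMap (Algebra.adjoin ℂ (Set.range x)) _ (algebraMap ℂ _ c), rfl⟩)
    (algebraMap (Algebra.adjoin ℂ (Set.range x)) _ ⟨(y : K), hyR⟩)
    (fun h => hyK (congrArg (Subtype.val : _ → K) h)) (hJV' y hyJ)
  exact ⟨E, fun a ha => h1 a (hAV' a ha), fun a ha => h2 _ (hJV' a ha)⟩

end Pool.Agent.H62.LGC
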