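import Pool.Agent.H17LG.Variety
import Pool.Agent.H17LG.ModLREG
import Pool.Agent.H23.Forms
import Pool.Agent.H23.Bridge

/-!
# LGC Coef: forms on a curve, in terms of a function

`Form.mk c (fun _ => a)` is `c • da`.  HINTS: `exists_coef`: `![a]` is a transcendence basis (`hz`: the transcendence degree is `1`; for
instance `IsTranscendenceBasis` of cardinality one), `exists_basis_kaehler` (`Pool/Agent/H23`) gives `b 0 = D a`, `eq_fc_smul`
(`Pool/Agent/H23/Forms.lean`): `ω = fc b ω • ιMulti b`.  `exists_local`: `exists_divisorCoords hz (ofFano E)` gives `π = g 0`, `b`, `b 0 = D π`,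
`E.ord π = 1` and `dualDer b 0` preserves the local ring; `mem_regularForms_iff` (with `O := ` the subalgebra of the elements of order `≥ 0`,
`valRing E.ord E.ord_const` of `Pool/Agent/H23`, `fano_mem_regularForms`): `η = β • Form.mk 1 (fun _ => π)` with `β = fc b η`, `E.ord β ≥ 0`.
See `exists_frame` in `Pool/Agent/H17R/Frame.lean`, which does the same with more data.
-/

set_option autoImplicit false

open Pool.Agent.H23.Fano (Form PrimeDivisorOver)
open Pool.Agent.H17LG.Variety (PoleAtMost)
open Pool.Agent.H23 (fc eq_fc_smul exists_basis_kaehler exists_divisorCoords ofFano valRing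
  mem_regularForms_iff fano_mem_regularForms RatForm regularForms)

noncomputable section

namespace Pool.Agent.H62.LGC

variable {K : Type} [Field K] [Algebra ℂ K]

private theorem Coef_mk (c a : K) :
    (Form.mk c fun _ => a : Form K 1) =
      (show Form K 1 from c • (exteriorPower.ιMulti K 1 (fun _ : Fin 1 => KaehlerDifferential.D ℂ K a))) :=
  rfl

private theorem Coef_eq {b : Module.Basis (Fin 1) K Ω[K⁄ℂ]} {a : K}
    (hb : ∀ i, b i = KaehlerDifferential.D ℂ K a) (ω : Form K 1) :
    ω = Form.mk (fc b ω) fun _ => a := by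
  have h := eq_fc_smul b ω
  simp only [hb] at h
  exact h

theorem exists_coef [Algebra.EssFiniteType ℂ K] (hz : ∃ z : Fin 1 → K, IsTranscendenceBasis ℂ z) (ω : Form K 1) {a : K}
    (ha : Transcendental ℂ a) : ∃ c : K, ω = Form.mk c fun _ => a := by
  obtain ⟨z, hz⟩ := hz
  have hind : AlgebraicIndependent ℂ (fun _ : Fin 1 => a) :=
    algebraicIndependent_unique_type_iff.mpr ha
  have hbasis : IsTranscendenceBasis ℂ (fun _ : Fin 1 => a) := by
    apply hind.isTranscendenceBasis_of_trdeg_le_of_finite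
    rw [← hz.cardinalMk_eq_trdeg]
  obtain ⟨b, hb⟩ := exists_basis_kaehler hbasis
  exact ⟨_, Coef_eq hb ω⟩

theorem coef_ne_zero {ω : Form K 1} (hω : ω ≠ 0) {a c : K} (h : ω = Form.mk c fun _ => a) : c ≠ 0 := by
  rintro rfl
  apply hω
  rw [h]
  exact zero_smul K _

private theorem Coef_trans {v : AddValuation K (WithTop ℤ)}
    (hv : ∀ c : ℂ, 0 ≤ v (algebraMap ℂ K c)) {t : K} (ht : v t = 1) : Transcendental ℂ t := by
  intro halg
  have h1 : (minpoly ℂ t).degree = 1 :=
    IsAlgClosed.degree_eq_one_of_irreducible ℂ (minpoly.irreducible halg.isIntegral)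
  obtain ⟨c, hc⟩ := minpoly.degree_eq_one_iff.mp h1
  have hc0 : c ≠ 0 := by
    rintro rfl
    rw [map_zero] at hc
    rw [← hc, AddValuation.map_zero] at ht
    exact absurd ht (by simp)
  have h2 := hv c⁻¹
  have h3 : v (algebraMap ℂ K c) + v (algebraMap ℂ K c⁻¹) = 0 := by
    rw [← AddValuation.map_mul, ← map_mul, mul_inv_cancel₀ hc0, map_one, AddValuation.map_one]
  rw [hc, ht] at h3
  have h4 : (1 : WithTop ℤ) + 0 ≤ 1 + v (algebraMap ℂ K c⁻¹) := add_le_add le_rfl h2
  rw [h3, add_zero] at h4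
  exact absurd h4 (by decide)

/-- A form with a pole of order at most `p` along a place, in terms of a local parameter. -/
theorem exists_local [Algebra.EssFiniteType ℂ K] (hz : ∃ z : Fin 1 → K, IsTranscendenceBasis ℂ z) {p m : ℕ}
    {E : PrimeDivisorOver K 1} {f : K} {ω : Form K 1} (hω : ω ≠ 0) (h : PoleAtMost p E m f ω) :
    ∃ π c : K, Transcendental ℂ π ∧ E.ord π = 1 ∧ ω = Form.mk c (fun _ => π) ∧ 0 ≤ E.ord (f * c ^ m) + p := by
  obtain ⟨z, hz⟩ := hz
  obtain ⟨g, b, hb, hg0, hg, hD⟩ := exists_divisorCoords hz (ofFano E)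
  obtain ⟨gg, η, hη, hωη, hpole⟩ := h
  have hb' : ∀ i, b i = KaehlerDifferential.D ℂ K (g 0) := by
    intro i
    have hi : i = 0 := Fin.fin_one_eq_zero i
    rw [hb i, hi]
  have hβ : (0 : WithTop ℤ) ≤ E.ord (fc b η) := by
    have h1 : (show RatForm K 1 from η) ∈ regularForms 1 (valRing E.ord E.ord_const) :=
      (fano_mem_regularForms (A := valRing E.ord E.ord_const) (S := E.localRing) rfl η).mp hη
    exact (mem_regularForms_iff (valRing E.ord E.ord_const) b hb (fun i => hg i)
      (fun i f hf => hD i f hf) η).mp h1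
  refine ⟨g 0, gg * fc b η, Coef_trans E.ord_const hg0, hg0, ?_, ?_⟩
  · rw [hωη]
    have h2 := Coef_eq hb' η
    conv_lhs => rw [h2]
    rw [Coef_mk, Coef_mk]
    exact smul_smul gg (fc b η) _
  · have e : f * (gg * fc b η) ^ m = f * gg ^ m * (fc b η) ^ m := by ring
    rw [e, AddValuation.map_mul, AddValuation.map_pow]
    have h3 : (0 : WithTop ℤ) ≤ m • E.ord (fc b η) := nsmul_nonneg hβ m
    calc (0 : WithTop ℤ) ≤ E.ord (f * gg ^ m) + p := hpole
      _ = E.ord (f * gg ^ m) + 0 + p := by rw [add_zero]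
      _ ≤ E.ord (f * gg ^ m) + m • E.ord (fc b η) + p := by
          gcongr

end Pool.Agent.H62.LGC
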