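import Pool.Agent.H62.LGC.Ev
import Pool.Agent.H17LG.Variety

/-!
# LGC EvDer: the pull back of a form does not depend on the coordinate

PROOF of `coef_eq`: let `M := Filter.Germ (𝓝[≠] s) ℂ`, a commutative ring.  `Ψ : K →+* M`, `g ↦ (ψ g : Germ)` is a ring homomorphism by `Ev`.
Make `M` a `K`-module through `Ψ` (`Module.compHom`, or `RingHom.toAlgebra`; use a type synonym or local instances).
`D : K → M`, `g ↦ (deriv (ψ g) : Germ)` is a derivation over `ℂ`: near `s` (punctured) the functions are analytic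
(`MeromorphicAt.eventually_analyticAt`), and eventual equality on `𝓝[≠] s` passes to the derivatives (`EventuallyEq.nhdsNE_deriv`, used in
`Pool/Agent/H62/FC/LocalEst.lean`).  By the universal property (`Derivation.liftKaehlerDifferential`) there is a `K`-linear
`Λ : Ω[K⁄ℂ] → M` with `Λ (D a) = D a`; so `Λ` of `c • da = c' • da'` gives the claim.  The 1-forms `Form K 1` are the first exterior power of
`Ω[K⁄ℂ]`; from `Form.mk c (fun _ => a) = Form.mk c' (fun _ => a')` one gets `c • D a = c' • D a'` in `Ω[K⁄ℂ]` by the linear map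
`⋀[K]^1 Ω → Ω` which comes from the alternating map `v ↦ v 0` (`exteriorPower.alternatingMapLinearEquiv (AlternatingMap.ofSubsingleton ...)`,
`exteriorPower.alternatingMapLinearEquiv_apply_ιMulti`; or `exteriorPower.oneEquiv`).
-/

set_option autoImplicit false

open Topology Filter
open Pool.Agent.H17 (puncturedDisc)
open Pool.Agent.H23.Fano (Form)

noncomputable section

namespace Pool.Agent.H62.LGC

variable {K : Type} [Field K] [Algebra ℂ K] {ψ : K → ℂ → ℂ}

/-- The germ of `ψ g` at `s` (punctured), as a ring homomorphism. -/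
private def evHom (h : Ev ψ) {s : ℂ} (hs : s ∈ puncturedDisc) : K →+* Filter.Germ (𝓝[≠] s) ℂ where
  toFun g := (ψ g : Filter.Germ (𝓝[≠] s) ℂ)
  map_one' := Filter.Germ.coe_eq.2 (h.one hs)
  map_mul' g g' := Filter.Germ.coe_eq.2 (h.mul g g' s hs)
  map_zero' := Filter.Germ.coe_eq.2 (h.zero hs)
  map_add' g g' := Filter.Germ.coe_eq.2 (h.add g g' s hs)

private theorem Ev.eventually_diff (h : Ev ψ) (g : K) {s : ℂ} (hs : s ∈ puncturedDisc) :
    ∀ᶠ z in 𝓝[≠] s, DifferentiableAt ℂ (ψ g) z :=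
  (h.mero g s hs).eventually_analyticAt.mono fun _ hz => hz.differentiableAt

private theorem Ev.deriv_add (h : Ev ψ) (g g' : K) {s : ℂ} (hs : s ∈ puncturedDisc) :
    deriv (ψ (g + g')) =ᶠ[𝓝[≠] s] fun z => deriv (ψ g) z + deriv (ψ g') z := by
  refine (Filter.EventuallyEq.nhdsNE_deriv (h.add g g' s hs)).trans ?_
  filter_upwards [h.eventually_diff g hs, h.eventually_diff g' hs] with z h1 h2
  exact deriv_fun_add h1 h2

private theorem Ev.deriv_mul (h : Ev ψ) (g g' : K) {s : ℂ} (hs : s ∈ puncturedDisc) :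
    deriv (ψ (g * g')) =ᶠ[𝓝[≠] s] fun z => ψ g z * deriv (ψ g') z + ψ g' z * deriv (ψ g) z := by
  refine (Filter.EventuallyEq.nhdsNE_deriv (h.mul g g' s hs)).trans ?_
  filter_upwards [h.eventually_diff g hs, h.eventually_diff g' hs] with z h1 h2
  rw [deriv_fun_mul h1 h2]
  ring

private theorem Ev.smul (h : Ev ψ) (c : ℂ) (g : K) {s : ℂ} (hs : s ∈ puncturedDisc) :
    ψ (c • g) =ᶠ[𝓝[≠] s] fun z => c * ψ g z := by
  rw [Algebra.smul_def]
  refine (h.mul _ g s hs).trans ?_
  filter_upwards [h.const c s hs] with z hz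
  rw [hz]

private theorem Ev.deriv_smul (h : Ev ψ) (c : ℂ) (g : K) {s : ℂ} (hs : s ∈ puncturedDisc) :
    deriv (ψ (c • g)) =ᶠ[𝓝[≠] s] fun z => c * deriv (ψ g) z := by
  refine (Filter.EventuallyEq.nhdsNE_deriv (h.smul c g hs)).trans ?_
  filter_upwards [h.eventually_diff g hs] with z h1
  exact deriv_const_mul c h1

theorem coef_eq (h : Ev ψ) {a a' c c' : K} (hc : (Form.mk c (fun _ => a) : Form K 1) = Form.mk c' fun _ => a') {s : ℂ}
    (hs : s ∈ puncturedDisc) :
    (fun z => ψ c z * deriv (ψ a) z) =ᶠ[𝓝[≠] s] fun z => ψ c' z * deriv (ψ a') z := by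
  letI : Module K (Filter.Germ (𝓝[≠] s) ℂ) := Module.compHom (Filter.Germ (𝓝[≠] s) ℂ) (evHom h hs)
  have hsm : ∀ (k : K) (m : Filter.Germ (𝓝[≠] s) ℂ), k • m = evHom h hs k * m := fun k m => rfl
  haveI : IsScalarTower ℂ K (Filter.Germ (𝓝[≠] s) ℂ) := ⟨fun r k m => by
    rw [hsm, hsm]
    have h1 : evHom h hs (r • k) = r • evHom h hs k := Filter.Germ.coe_eq.2 (h.smul r k hs)
    rw [h1]
    induction m using Filter.Germ.inductionOn with
    | _ f =>
      refine Filter.Germ.coe_eq.2 (Filter.Eventually.of_forall fun z => ?_)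
      exact mul_assoc _ _ _⟩
  let L : K →ₗ[ℂ] Filter.Germ (𝓝[≠] s) ℂ :=
    { toFun := fun g => ((deriv (ψ g) : ℂ → ℂ) : Filter.Germ (𝓝[≠] s) ℂ)
      map_add' := fun g g' => Filter.Germ.coe_eq.2 (h.deriv_add g g' hs)
      map_smul' := fun r g => Filter.Germ.coe_eq.2 (h.deriv_smul r g hs) }
  let D : Derivation ℂ K (Filter.Germ (𝓝[≠] s) ℂ) :=
    Derivation.mk' L fun g g' => Filter.Germ.coe_eq.2 (h.deriv_mul g g' hs)
  have h1 : c • exteriorPower.ιMulti K 1 (fun _ : Fin 1 => KaehlerDifferential.D ℂ K a) =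
      c' • exteriorPower.ιMulti K 1 (fun _ : Fin 1 => KaehlerDifferential.D ℂ K a') := hc
  have h2 := congrArg (exteriorPower.oneEquiv K Ω[K⁄ℂ]) h1
  rw [map_smul, map_smul, exteriorPower.oneEquiv_ιMulti, exteriorPower.oneEquiv_ιMulti] at h2
  have h3 := congrArg D.liftKaehlerDifferential h2
  rw [map_smul, map_smul, Derivation.liftKaehlerDifferential_comp_D, Derivation.liftKaehlerDifferential_comp_D,
    hsm, hsm] at h3
  exact Filter.Germ.coe_eq.1 h3

end Pool.Agent.H62.LGC
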