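import Pool.Agent.H62.LGC.EvPlace
import Pool.Agent.H62.LGC.Coef
import Pool.Agent.H62.LGC.EvDer

/-!
# LGC Pull: the pull back of a pluricanonical form

PROOF of `order_pull`: `exists_local` with `p = 0` for the place `E` under `s`: `ω = c' • dπ`, `E.ord π = 1`, `0 ≤ E.ord (f * c' ^ m)`; by
`coef_eq` the function is eventually `ψ f * (ψ c' * deriv (ψ π)) ^ m`, hence eventually `ψ (f * c' ^ m) * deriv (ψ π) ^ m`; `ψ (f * c'^m)` has order
`e * n ≥ 0` (`Under`; or is `0`), `ψ π` has order `e ≥ 1`, so it extends analytically to `s` and the order of its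
derivative is `≥ 0` (`meromorphicOrderAt` of the derivative of an analytic function; eventual equality `EventuallyEq.nhdsNE_deriv`).
PROOF of `exists_log`: `exists_local`; `y := f * (c * π) ^ m`, its order is `E.ord (f * c ^ m) + m`.
-/

set_option autoImplicit false

open Topology Filter
open Pool.Agent.H17 (puncturedDisc)
open Pool.Agent.H23.Fano (Form PrimeDivisorOver)
open Pool.Agent.H17LG.Variety (PoleAtMost)

noncomputable section

namespace Pool.Agent.H62.LGC

variable {K : Type} [Field K] [Algebra ℂ K] {ψ : K → ℂ → ℂ}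

/-- The pull back of the form `f ω^m`, `ω = c • da`. -/
def pull (ψ : K → ℂ → ℂ) (f c a : K) (m : ℕ) (z : ℂ) : ℂ := ψ f z * (ψ c z * deriv (ψ a) z) ^ m

theorem pull_mero (h : Ev ψ) (f c a : K) (m : ℕ) {s : ℂ} (hs : s ∈ puncturedDisc) : MeromorphicAt (pull ψ f c a m) s :=
  (h.mero f s hs).mul (((h.mero c s hs).mul (h.mero a s hs).deriv).pow m)

theorem order_pull [Algebra.EssFiniteType ℂ K] (hz : ∃ z : Fin 1 → K, IsTranscendenceBasis ℂ z) (h : Ev ψ) {s : ℂ}
    (hs : s ∈ puncturedDisc) {E : PrimeDivisorOver K 1} (hE : Under ψ s E) {m : ℕ} {f a c : K} {ω : Form K 1} (hω : ω ≠ 0)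
    (hp : PoleAtMost 0 E m f ω) (hc : ω = Form.mk c fun _ => a) :
    0 ≤ meromorphicOrderAt (pull ψ f c a m) s := by
  obtain ⟨π, c', hπt, hπ1, hω', hcond⟩ := exists_local hz hω hp
  have hcoef := coef_eq h (hc.symm.trans hω') hs
  have hcond' : 0 ≤ E.ord (f * c' ^ m) := by simpa using hcond
  obtain ⟨e, he, hord⟩ := hE
  have hpull : pull ψ f c a m =ᶠ[𝓝[≠] s] fun z => ψ (f * c' ^ m) z * deriv (ψ π) z ^ m := by
    filter_upwards [hcoef, h.mul f (c' ^ m) s hs, h.pow c' m hs] with z h1 h2 h3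
    show ψ f z * (ψ c z * deriv (ψ a) z) ^ m = ψ (f * c' ^ m) z * deriv (ψ π) z ^ m
    rw [h2, h3, h1]
    ring
  have hπ0 : π ≠ 0 := by
    rintro rfl
    exact hπt isAlgebraic_zero
  have ho1 : ∃ n : ℤ, 0 ≤ n ∧ meromorphicOrderAt (deriv (ψ π)) s = (n : WithTop ℤ) := by
    obtain ⟨n, hn, hn'⟩ := hord π hπ0
    have hn1 : n = 1 := by
      rw [hπ1] at hn
      exact_mod_cast hn.symm
    rw [hn1, mul_one] at hn'
    refine ⟨(e : ℤ) - 1, by omega, meromorphicOrderAt_deriv_eq_sub_one (n := (e : ℤ)) ?_ hn'⟩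
    have : e ≠ 0 := by omega
    exact_mod_cast this
  obtain ⟨n, hn0, hn⟩ := ho1
  have hpow : 0 ≤ meromorphicOrderAt (fun z => deriv (ψ π) z ^ m) s := by
    have e1 : meromorphicOrderAt (fun z => deriv (ψ π) z ^ m) s = (m : WithTop ℤ) * meromorphicOrderAt (deriv (ψ π)) s :=
      meromorphicOrderAt_pow (h.mero π s hs).deriv
    rw [e1, hn]
    have e2 : ((m : ℕ) : WithTop ℤ) * (n : WithTop ℤ) = (((m : ℤ) * n : ℤ) : WithTop ℤ) := by push_cast; rfl
    rw [e2]
    exact_mod_cast mul_nonneg (Int.natCast_nonneg m) hn0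
  have hfst : 0 ≤ meromorphicOrderAt (ψ (f * c' ^ m)) s := by
    by_cases h0 : f * c' ^ m = 0
    · have e1 : meromorphicOrderAt (ψ (f * c' ^ m)) s = ⊤ := by
        rw [meromorphicOrderAt_eq_top_iff, h0]
        exact h.zero hs
      rw [e1]
      exact le_top
    · obtain ⟨k, hk, hk'⟩ := hord _ h0
      rw [hk] at hcond'
      rw [hk']
      have hk0 : 0 ≤ k := by exact_mod_cast hcond'
      exact_mod_cast mul_nonneg (Int.natCast_nonneg e) hk0
  have hmul : meromorphicOrderAt (fun z => ψ (f * c' ^ m) z * deriv (ψ π) z ^ m) s =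
      meromorphicOrderAt (ψ (f * c' ^ m)) s + meromorphicOrderAt (fun z => deriv (ψ π) z ^ m) s :=
    meromorphicOrderAt_mul (h.mero _ s hs) ((h.mero π s hs).deriv.pow m)
  rw [meromorphicOrderAt_congr hpull, hmul]
  exact add_nonneg hfst hpow

theorem exists_log [Algebra.EssFiniteType ℂ K] (hz : ∃ z : Fin 1 → K, IsTranscendenceBasis ℂ z) {E : PrimeDivisorOver K 1}
    {m : ℕ} {f : K} {ω : Form K 1} (hω : ω ≠ 0) (hp : PoleAtMost m E m f ω) :
    ∃ a c : K, Transcendental ℂ a ∧ ω = Form.mk c (fun _ => a) ∧ 0 ≤ E.ord (f * (c * a) ^ m) := by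
  obtain ⟨π, c, hπt, hπ1, hω', hcond⟩ := exists_local hz hω hp
  refine ⟨π, c, hπt, hω', ?_⟩
  rw [mul_pow, ← mul_assoc, E.ord.map_mul, E.ord.map_pow, hπ1, nsmul_one]
  exact hcond

end Pool.Agent.H62.LGC
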