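import Pool.Agent.H62.LGC.Cert
import Pool.Agent.H62.LGC.Pull

/-!
# LGC Bound: the pull back of a form with logarithmic poles is bounded by logarithmic derivatives

PROOF: `ι := {q : K × K // Transcendental ℂ q.1 ∧ ω = Form.mk q.2 fun _ => q.1}`, `y q := (f * (q.2 * q.1) ^ m)⁻¹` (`f ≠ 0`, `q.2 ≠ 0` by
`coef_ne_zero`, `q.1 ≠ 0`).  `exists_log` and `E.ord (x⁻¹) = -E.ord x`-like give `E.ord (y q) ≤ 0` for some `q`; `exists_cert` gives `p` with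
`constantCoeff p = 0`, `aeval y p = 1`.  By continuity of `p` in its finitely many variables (`p.vars`; `MvPolynomial.eval_eq`,
`MvPolynomial.eval₂_congr`-like) there is `δ > 0`
such that `‖eval v p‖ < 1` whenever `‖v q‖ < δ` for all `q ∈ p.vars`.  `S := ` the image of `p.vars` under `q ↦ q.1.1`.  By `Ev.aeval`, `Ev.one`:
eventually `eval (fun q => ψ (y q) z) p = 1`, so `‖ψ (y q) z‖ ≥ δ` for some `q ∈ p.vars`.  By `coef_eq`, `Ev.inv`, `Ev.mul`, `Ev.pow`, eventually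
`pull ψ f c a m z = (ψ (y q) z)⁻¹ * (deriv (ψ q.1.1) z / ψ q.1.1 z) ^ m`; so its norm is at most `δ⁻¹ ‖log derivative‖ ^ m` and
`Real.posLog_mul`, `Real.posLog_pow`-like.
-/

set_option autoImplicit false

open Topology Filter
open Pool.Agent.H17 (puncturedDisc)
open Pool.Agent.H23.Fano (Form PrimeDivisorOver)
open Pool.Agent.H17LG.Variety (PoleAtMost)

noncomputable section

namespace Pool.Agent.H62.LGC

variable {K : Type} [Field K] [Algebra ℂ K] {ψ : K → ℂ → ℂ}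

private theorem bound_delta {ι : Type} (p : MvPolynomial ι ℂ) (hp : MvPolynomial.constantCoeff p = 0) :
    ∃ δ : ℝ, 0 < δ ∧ ∀ v : ι → ℂ, MvPolynomial.eval v p = 1 → ∃ q ∈ p.vars, δ ≤ ‖v q‖ := by
  classical
  set B : ℝ := ∑ d ∈ p.support, ‖p.coeff d‖ with hB
  have hB0 : 0 ≤ B := Finset.sum_nonneg fun d _ => norm_nonneg _
  have hδ : 0 < min 1 (1 / (2 * (1 + B))) := lt_min one_pos (by positivity)
  refine ⟨min 1 (1 / (2 * (1 + B))), hδ, fun v hv => ?_⟩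
  set δ : ℝ := min 1 (1 / (2 * (1 + B))) with hδdef
  by_contra hcon
  push Not at hcon
  have h1 : δ ≤ 1 := min_le_left _ _
  have h2 : δ ≤ 1 / (2 * (1 + B)) := min_le_right _ _
  have h3 : ‖MvPolynomial.eval v p‖ ≤ B * δ := by
    rw [MvPolynomial.eval_eq, hB, Finset.sum_mul]
    refine (norm_sum_le _ _).trans (Finset.sum_le_sum fun d hd => ?_)
    rw [norm_mul]
    refine mul_le_mul_of_nonneg_left ?_ (norm_nonneg _)
    have hd0 : d ≠ 0 := by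
      rintro rfl
      exact MvPolynomial.mem_support_iff.1 hd hp
    obtain ⟨i, hi⟩ := Finsupp.support_nonempty_iff.2 hd0
    have hv1 : ∀ j ∈ d.support, ‖v j‖ < δ := fun j hj =>
      hcon j ((MvPolynomial.mem_vars_iff_mem_support j).2 ⟨d, hd, hj⟩)
    rw [norm_prod, ← Finset.mul_prod_erase _ _ hi]
    have h4 : ‖v i ^ d i‖ ≤ δ := by
      rw [norm_pow]
      have h5 : d i ≠ 0 := Finsupp.mem_support_iff.1 hi
      calc ‖v i‖ ^ d i ≤ δ ^ d i := pow_le_pow_left₀ (norm_nonneg _) (hv1 i hi).le _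
        _ ≤ δ := pow_le_of_le_one hδ.le h1 h5
    have h6 : ∏ j ∈ d.support.erase i, ‖v j ^ d j‖ ≤ 1 := by
      refine Finset.prod_le_one (fun j _ => norm_nonneg _) fun j hj => ?_
      rw [norm_pow]
      exact pow_le_one₀ (norm_nonneg _) ((hv1 j (Finset.mem_of_mem_erase hj)).le.trans h1)
    calc ‖v i ^ d i‖ * ∏ j ∈ d.support.erase i, ‖v j ^ d j‖ ≤ δ * 1 :=
          mul_le_mul h4 h6 (Finset.prod_nonneg fun j _ => norm_nonneg _) hδ.le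
      _ = δ := mul_one δ
  rw [hv, norm_one] at h3
  have h4 : B * δ ≤ B * (1 / (2 * (1 + B))) := mul_le_mul_of_nonneg_left h2 hB0
  have h5 : B * (1 / (2 * (1 + B))) < 1 := by
    rw [mul_one_div, div_lt_one (by positivity)]
    linarith
  linarith

private theorem bound_ord_inv {E : PrimeDivisorOver K 1} {g : K} (hg : g ≠ 0) (h : 0 ≤ E.ord g) :
    E.ord g⁻¹ ≤ 0 := by
  by_contra hcon
  rw [not_le] at hcon
  have h1 : E.ord (g * g⁻¹) = E.ord g + E.ord g⁻¹ := E.ord.map_mul g g⁻¹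
  rw [mul_inv_cancel₀ hg, E.ord.map_one] at h1
  have h2 : 0 < E.ord g + E.ord g⁻¹ := lt_of_lt_of_le hcon (le_add_of_nonneg_left h)
  exact absurd h1 (ne_of_lt h2)

theorem exists_bound [Algebra.EssFiniteType ℂ K] (hz : ∃ z : Fin 1 → K, IsTranscendenceBasis ℂ z) (h : Ev ψ) {m : ℕ}
    {f : K} (hf : f ≠ 0) {ω : Form K 1} (hω : ω ≠ 0) (hp : ∀ E, PoleAtMost m E m f ω) {a c : K}
    (hc : ω = Form.mk c fun _ => a) :
    ∃ (S : Finset K) (C : ℝ), 0 ∉ S ∧ ∀ s ∈ puncturedDisc, ∀ᶠ z in 𝓝[≠] s,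
      Real.posLog ‖pull ψ f c a m z‖ ≤ C + m * ∑ b ∈ S, Real.posLog ‖deriv (ψ b) z / ψ b z‖ := by
  classical
  set ι : Type := {q : K × K // Transcendental ℂ q.1 ∧ ω = Form.mk q.2 fun _ => q.1} with hι
  have hq1 : ∀ q : ι, q.1.1 ≠ 0 := fun q h0 => q.2.1 (h0 ▸ isAlgebraic_zero)
  have hq2 : ∀ q : ι, q.1.2 ≠ 0 := fun q => coef_ne_zero hω q.2.2
  have hy0 : ∀ q : ι, f * (q.1.2 * q.1.1) ^ m ≠ 0 := fun q =>
    mul_ne_zero hf (pow_ne_zero _ (mul_ne_zero (hq2 q) (hq1 q)))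
  obtain ⟨p, hp0, hp1⟩ := exists_cert hz (fun q : ι => (f * (q.1.2 * q.1.1) ^ m)⁻¹) (fun E => by
    obtain ⟨a', c', ha', hc', hE⟩ := exists_log hz hω (hp E)
    exact ⟨⟨(a', c'), ha', hc'⟩, bound_ord_inv (hy0 ⟨(a', c'), ha', hc'⟩) hE⟩)
  obtain ⟨δ, hδ, hδ1⟩ := bound_delta p hp0
  refine ⟨p.vars.image fun q => q.1.1, Real.posLog δ⁻¹, ?_, fun s hs => ?_⟩
  · intro h0
    obtain ⟨q, _, hq⟩ := Finset.mem_image.1 h0
    exact hq1 q hq
  have e1 := h.aeval (fun q : ι => (f * (q.1.2 * q.1.1) ^ m)⁻¹) p hs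
  rw [hp1] at e1
  have e2 : ∀ᶠ z in 𝓝[≠] s, ∀ q ∈ p.vars, ψ c z * deriv (ψ a) z = ψ q.1.2 z * deriv (ψ q.1.1) z :=
    (Filter.eventually_all_finset _).2 fun q _ => coef_eq h (hc.symm.trans q.2.2) hs
  have e3 : ∀ᶠ z in 𝓝[≠] s, ∀ q ∈ p.vars,
      ψ ((f * (q.1.2 * q.1.1) ^ m)⁻¹) z = (ψ f z * (ψ q.1.2 z * ψ q.1.1 z) ^ m)⁻¹ := by
    refine (Filter.eventually_all_finset _).2 fun q _ => ?_
    filter_upwards [h.inv (hy0 q) hs, h.mul f ((q.1.2 * q.1.1) ^ m) s hs, h.pow (q.1.2 * q.1.1) m hs,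
      h.mul q.1.2 q.1.1 s hs] with z h1 h2 h3 h4
    rw [h1, h2, h3, h4]
  have e4 : ∀ᶠ z in 𝓝[≠] s, ∀ q ∈ p.vars, ψ q.1.1 z ≠ 0 :=
    (Filter.eventually_all_finset _).2 fun q _ => h.ne_zero (hq1 q) hs
  filter_upwards [e1, h.one hs, e2, e3, e4] with z h1 h2 h3 h4 h5
  rw [h2] at h1
  obtain ⟨q, hq, hqδ⟩ := hδ1 _ h1.symm
  rw [h4 q hq] at hqδ
  have k1 : pull ψ f c a m z =
      (ψ f z * (ψ q.1.2 z * ψ q.1.1 z) ^ m) * (deriv (ψ q.1.1) z / ψ q.1.1 z) ^ m := by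
    unfold pull
    rw [h3 q hq, mul_assoc, ← mul_pow]
    congr 2
    rw [mul_assoc, mul_div_cancel₀ _ (h5 q hq)]
  have k2 : ‖ψ f z * (ψ q.1.2 z * ψ q.1.1 z) ^ m‖ ≤ δ⁻¹ := by
    rw [norm_inv] at hqδ
    exact (le_inv_comm₀ hδ (by
      by_contra h0
      have h6 : ‖ψ f z * (ψ q.1.2 z * ψ q.1.1 z) ^ m‖ = 0 :=
        le_antisymm (not_lt.1 h0) (norm_nonneg _)
      rw [h6, inv_zero] at hqδ
      linarith)).1 hqδ
  rw [k1, norm_mul, norm_pow]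
  refine Real.posLog_mul.trans ?_
  rw [Real.posLog_pow]
  refine add_le_add (Real.posLog_le_posLog (norm_nonneg _) k2) ?_
  refine mul_le_mul_of_nonneg_left ?_ (Nat.cast_nonneg m)
  exact Finset.single_le_sum (f := fun b => Real.posLog ‖deriv (ψ b) z / ψ b z‖)
    (fun _ _ => Real.posLog_nonneg) (Finset.mem_image_of_mem (fun q : ι => q.1.1) hq)

end Pool.Agent.H62.LGC
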