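import Pool.Agent.H62.LGC.Dom

/-!
# LGC Cert: functions without common zero

PROOF: `A := Algebra.adjoin ℂ (Set.range y)`, `J := Ideal.span (Set.range fun l => (⟨y l, _⟩ : A))`.  If `J = ⊤` then
`1 = ∑ a_l y_l` (`Submodule.mem_span_range_iff_exists_fun`-like, finite sum), `a_l = aeval y q_l`
(`Algebra.adjoin_range_eq_range_aeval`), `p := ∑ q_l * X l`.  If `J ≠ ⊤` and some `y l ≠ 0`: `exists_dom` gives `E` with
`0 < E.ord (y l)` for all `l`: contradiction to `h E`.  If all `y l = 0`: `h E` fails for every `E` (`E.ord 0 = ⊤`), and a place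
exists, by `exists_dom` for `A := Algebra.adjoin ℂ {z 0}`, `J := Ideal.span {z 0}` (`z 0` is transcendental, so `J ≠ ⊤`: if
`1 = q(z 0) * z 0` then the polynomial `q X - 1` has the root `z 0`).
-/

set_option autoImplicit false

open Pool.Agent.H23.Fano (PrimeDivisorOver)
open MvPolynomial

noncomputable section

namespace Pool.Agent.H62.LGC

variable {K : Type} [Field K] [Algebra ℂ K]

/-- If every place has nonnegative order at some `1 / y l` then `1` is a polynomial without constant term in the `y l`. -/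
theorem exists_cert [Algebra.EssFiniteType ℂ K] (hz : ∃ z : Fin 1 → K, IsTranscendenceBasis ℂ z) {ι : Type} (y : ι → K)
    (h : ∀ E : PrimeDivisorOver K 1, ∃ l, E.ord (y l) ≤ 0) :
    ∃ p : MvPolynomial ι ℂ, constantCoeff p = 0 ∧ aeval y p = 1 := by
  classical
  have hy : ∀ l, y l ∈ Algebra.adjoin ℂ (Set.range y) := fun l => Algebra.subset_adjoin ⟨l, rfl⟩
  let y' : ι → Algebra.adjoin ℂ (Set.range y) := fun l => ⟨y l, hy l⟩
  by_cases hJ : Ideal.span (Set.range y') = ⊤
  · have h1 : (1 : Algebra.adjoin ℂ (Set.range y)) ∈ Submodule.span (Algebra.adjoin ℂ (Set.range y)) (Set.range y') :=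
      (Ideal.eq_top_iff_one _).1 hJ
    obtain ⟨c, hc⟩ := Finsupp.mem_span_range_iff_exists_finsupp.1 h1
    have h2 : ∀ i, ∃ q : MvPolynomial ι ℂ, aeval y q = (c i : K) := by
      intro i
      have h3 : ∀ x : K, x ∈ Algebra.adjoin ℂ (Set.range y) → ∃ q : MvPolynomial ι ℂ, aeval y q = x := by
        intro x hx
        rw [Algebra.adjoin_range_eq_range_aeval] at hx
        exact hx
      exact h3 _ (c i).2
    choose q hq using h2
    refine ⟨∑ i ∈ c.support, q i * X i, ?_, ?_⟩
    · rw [map_sum]
      apply Finset.sum_eq_zero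
      intro i _
      rw [map_mul, constantCoeff_X, mul_zero]
    · rw [map_sum]
      have h4 : ((c.sum fun i a => a • y' i : Algebra.adjoin ℂ (Set.range y)) : K) = 1 := by
        rw [hc]
        rfl
      rw [← h4, Finsupp.sum]
      rw [AddSubmonoidClass.coe_finsetSum]
      apply Finset.sum_congr rfl
      intro i _
      rw [map_mul, aeval_X, hq i]
      rfl
  · exfalso
    by_cases hl : ∃ l, y l ≠ 0
    · obtain ⟨l0, hl0⟩ := hl
      have hmem : ∀ l, y' l ∈ Ideal.span (Set.range y') := fun l => Ideal.subset_span ⟨l, rfl⟩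
      obtain ⟨E, -, hE⟩ := exists_dom hz (Algebra.adjoin ℂ (Set.range y)) (Ideal.span (Set.range y')) hJ
        ⟨y' l0, hmem l0, fun h0 => hl0 (congrArg Subtype.val h0)⟩
      obtain ⟨l, hl⟩ := h E
      exact absurd (hE (y' l) (hmem l)) (not_lt.2 hl)
    · push Not at hl
      obtain ⟨z, hz'⟩ := hz
      have htr : Transcendental ℂ (z 0) := hz'.1.transcendental 0
      let z' : Algebra.adjoin ℂ {z 0} := ⟨z 0, Algebra.subset_adjoin rfl⟩
      have hz0 : z 0 ≠ 0 := by
        intro h0
        apply htr
        rw [h0]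
        exact isAlgebraic_zero
      have hJ2 : Ideal.span {z'} ≠ ⊤ := by
        intro htop
        rw [Ideal.span_singleton_eq_top] at htop
        obtain ⟨a, ha⟩ := htop.exists_left_inv
        have h3 : ∀ x : K, x ∈ Algebra.adjoin ℂ {z 0} → ∃ q : Polynomial ℂ, Polynomial.aeval (z 0) q = x := by
          intro x hx
          rw [Algebra.adjoin_singleton_eq_range_aeval] at hx
          exact hx
        obtain ⟨q, hq⟩ := h3 _ a.2
        have h4 : (a : K) * z 0 = 1 := congrArg Subtype.val ha
        have h5 : Polynomial.aeval (z 0) (q * Polynomial.X - 1) = 0 := by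
          have h6 : Polynomial.aeval (z 0) q = (a : K) := hq
          rw [map_sub, map_mul, Polynomial.aeval_X, map_one, h6, h4, sub_self]
        have h7 : q * Polynomial.X - 1 = 0 := by
          by_contra hne
          exact htr ⟨_, hne, h5⟩
        have h8 := congrArg (Polynomial.eval 0) h7
        simp at h8
      obtain ⟨E, -, -⟩ := exists_dom ⟨z, hz'⟩ (Algebra.adjoin ℂ {z 0}) (Ideal.span {z'}) hJ2
        ⟨z', Ideal.subset_span rfl, fun h0 => hz0 (congrArg Subtype.val h0)⟩
      obtain ⟨l, hE⟩ := h E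
      rw [hl l, AddValuation.map_zero] at hE
      exact absurd hE (by simp)

end Pool.Agent.H62.LGC
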