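import Pool.Agent.H62.FC.Nev0
import Pool.Agent.H17.EntireCurves

/-!
# LGC Ev: evaluation of the functions of a field along a map from the punctured disc

`Ev ψ`: the `ψ g` (`g ∈ K`) are meromorphic functions on the punctured disc, and `g ↦ ψ g` is a homomorphism up to discrete sets.
HINTS: `ne_zero`: `ψ g * ψ g⁻¹ = ψ 1 = 1` eventually (`const` for `c = 1`, `map_one`); `inv` follows; `zero`: `const` for `0`; `neg`, `sub`:
`mul` with `ψ (algebraMap ℂ K (-1))`; `pow`: induction; `aeval`: `MvPolynomial.induction_on`;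
`polyAeval`: `Polynomial.induction_on`; `meroPunct`: `meromorphicOrderAt_ne_top_iff_eventually_ne_zero`; `z ∈ puncturedDisc ↔ 0 < ‖z‖ ∧ ‖z‖ < 1`
(see `mem_puncturedDisc` in `Pool/Agent/H17R/Curve.lean`).
`order_add`, `order_mul`, `order_inv`: `meromorphicOrderAt_congr`, `meromorphicOrderAt_mul`, `meromorphicOrderAt_add`, `meromorphicOrderAt_inv`.
-/

set_option autoImplicit false

open Topology Filter
open Pool.Agent.H17 (puncturedDisc)
open Pool.Agent.H62.FC (MeroPunct)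

noncomputable section

namespace Pool.Agent.H62.LGC

variable {K : Type} [Field K] [Algebra ℂ K]

/-- Evaluation along a holomorphic map from the punctured disc. -/
structure Ev (ψ : K → ℂ → ℂ) : Prop where
  mero : ∀ g : K, ∀ s ∈ puncturedDisc, MeromorphicAt (ψ g) s
  const : ∀ c : ℂ, ∀ s ∈ puncturedDisc, ψ (algebraMap ℂ K c) =ᶠ[𝓝[≠] s] fun _ => c
  add : ∀ g h : K, ∀ s ∈ puncturedDisc, ψ (g + h) =ᶠ[𝓝[≠] s] fun z => ψ g z + ψ h z
  mul : ∀ g h : K, ∀ s ∈ puncturedDisc, ψ (g * h) =ᶠ[𝓝[≠] s] fun z => ψ g z * ψ h z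

variable {ψ : K → ℂ → ℂ}

theorem Ev.zero (h : Ev ψ) {s : ℂ} (hs : s ∈ puncturedDisc) : ψ 0 =ᶠ[𝓝[≠] s] fun _ => 0 := by
  have h1 := h.const 0 s hs
  rwa [map_zero] at h1

theorem Ev.one (h : Ev ψ) {s : ℂ} (hs : s ∈ puncturedDisc) : ψ 1 =ᶠ[𝓝[≠] s] fun _ => 1 := by
  have h1 := h.const 1 s hs
  rwa [map_one] at h1

theorem Ev.neg (h : Ev ψ) (g : K) {s : ℂ} (hs : s ∈ puncturedDisc) : ψ (-g) =ᶠ[𝓝[≠] s] fun z => -ψ g z := by
  have h1 := h.add g (-g) s hs
  rw [add_neg_cancel] at h1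
  filter_upwards [h1, h.zero hs] with z h2 h3
  rw [h3] at h2
  exact eq_neg_of_add_eq_zero_right h2.symm

theorem Ev.sub (h : Ev ψ) (g g' : K) {s : ℂ} (hs : s ∈ puncturedDisc) :
    ψ (g - g') =ᶠ[𝓝[≠] s] fun z => ψ g z - ψ g' z := by
  have h1 := h.add g (-g') s hs
  rw [← sub_eq_add_neg] at h1
  filter_upwards [h1, h.neg g' hs] with z h2 h3
  rw [h2, h3, sub_eq_add_neg]

private theorem Ev_mul_inv (h : Ev ψ) {g : K} (hg : g ≠ 0) {s : ℂ} (hs : s ∈ puncturedDisc) :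
    ∀ᶠ z in 𝓝[≠] s, ψ g z * ψ g⁻¹ z = 1 := by
  have h1 := h.mul g g⁻¹ s hs
  rw [mul_inv_cancel₀ hg] at h1
  filter_upwards [h1, h.one hs] with z h2 h3
  rw [← h2, h3]

theorem Ev.ne_zero (h : Ev ψ) {g : K} (hg : g ≠ 0) {s : ℂ} (hs : s ∈ puncturedDisc) : ∀ᶠ z in 𝓝[≠] s, ψ g z ≠ 0 := by
  filter_upwards [Ev_mul_inv h hg hs] with z hz h0
  rw [h0, zero_mul] at hz
  exact zero_ne_one hz

theorem Ev.inv (h : Ev ψ) {g : K} (hg : g ≠ 0) {s : ℂ} (hs : s ∈ puncturedDisc) :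
    ψ g⁻¹ =ᶠ[𝓝[≠] s] fun z => (ψ g z)⁻¹ := by
  filter_upwards [Ev_mul_inv h hg hs] with z hz
  exact eq_inv_of_mul_eq_one_right hz

theorem Ev.div (h : Ev ψ) (g : K) {g' : K} (hg : g' ≠ 0) {s : ℂ} (hs : s ∈ puncturedDisc) :
    ψ (g / g') =ᶠ[𝓝[≠] s] fun z => ψ g z / ψ g' z := by
  have h1 := h.mul g g'⁻¹ s hs
  rw [← div_eq_mul_inv] at h1
  filter_upwards [h1, h.inv hg hs] with z h2 h3
  rw [h2, h3, div_eq_mul_inv]

theorem Ev.pow (h : Ev ψ) (g : K) (n : ℕ) {s : ℂ} (hs : s ∈ puncturedDisc) :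
    ψ (g ^ n) =ᶠ[𝓝[≠] s] fun z => ψ g z ^ n := by
  induction n with
  | zero =>
    rw [pow_zero]
    filter_upwards [h.one hs] with z h1
    rw [h1, pow_zero]
  | succ n ih =>
    have h1 := h.mul (g ^ n) g s hs
    rw [← pow_succ] at h1
    filter_upwards [h1, ih] with z h2 h3
    rw [h2, h3, pow_succ]

theorem Ev.aeval (h : Ev ψ) {ι : Type} (y : ι → K) (p : MvPolynomial ι ℂ) {s : ℂ} (hs : s ∈ puncturedDisc) :
    ψ (MvPolynomial.aeval y p) =ᶠ[𝓝[≠] s] fun z => MvPolynomial.eval (fun l => ψ (y l) z) p := by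
  induction p using MvPolynomial.induction_on with
  | C a =>
    have h1 := h.const a s hs
    rw [MvPolynomial.aeval_C]
    filter_upwards [h1] with z h2
    rw [h2, MvPolynomial.eval_C]
  | add p q hp hq =>
    have h1 := h.add (MvPolynomial.aeval y p) (MvPolynomial.aeval y q) s hs
    rw [map_add]
    filter_upwards [h1, hp, hq] with z h2 h3 h4
    rw [h2, h3, h4, map_add]
  | mul_X p i hp =>
    have h1 := h.mul (MvPolynomial.aeval y p) (y i) s hs
    rw [map_mul, MvPolynomial.aeval_X]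
    filter_upwards [h1, hp] with z h2 h3
    rw [h2, h3, map_mul, MvPolynomial.eval_X]

theorem Ev.polyAeval (h : Ev ψ) (g : K) (p : Polynomial ℂ) {s : ℂ} (hs : s ∈ puncturedDisc) :
    ψ (Polynomial.aeval g p) =ᶠ[𝓝[≠] s] fun z => Polynomial.eval (ψ g z) p := by
  induction p using Polynomial.induction_on' with
  | add p q hp hq =>
    have h1 := h.add (Polynomial.aeval g p) (Polynomial.aeval g q) s hs
    rw [map_add]
    filter_upwards [h1, hp, hq] with z h2 h3 h4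
    rw [h2, h3, h4, Polynomial.eval_add]
  | monomial n a =>
    have h1 := h.mul (algebraMap ℂ K a) (g ^ n) s hs
    rw [Polynomial.aeval_monomial]
    filter_upwards [h1, h.const a s hs, h.pow g n hs] with z h2 h3 h4
    rw [h2, h3, h4, Polynomial.eval_monomial]

private theorem Ev_mem {z : ℂ} (h1 : 0 < ‖z‖) (h2 : ‖z‖ < 1) : z ∈ puncturedDisc := by
  unfold puncturedDisc
  rw [Set.mem_sdiff, mem_ball_zero_iff, Set.mem_singleton_iff]
  exact ⟨h2, norm_pos_iff.mp h1⟩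

theorem Ev.meroPunct (h : Ev ψ) {g : K} (hg : g ≠ 0) : MeroPunct 1 (ψ g) := by
  constructor
  · intro z h1 h2
    exact h.mero g z (Ev_mem h1 h2)
  · intro z h1 h2
    have hs := Ev_mem h1 h2
    rw [meromorphicOrderAt_ne_top_iff_eventually_ne_zero (h.mero g z hs)]
    exact h.ne_zero hg hs

end Pool.Agent.H62.LGC
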