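import Pool.Agent.H62.LGC.Ev
import Pool.Agent.H17LG.Variety

/-!
# LGC EvPlace: the place under a point of the punctured disc

PROOF: `v g := meromorphicOrderAt (ψ g) s` is an `AddValuation K (WithTop ℤ)` (`Ev.mul`, `Ev.add`, `Ev.one`, `Ev.zero`,
`meromorphicOrderAt_congr`, `meromorphicOrderAt_mul`, `meromorphicOrderAt_add`), `v g ≠ ⊤` for `g ≠ 0` (`Ev.ne_zero`), and `v c = 0` for
constants `c ≠ 0`.  It is not trivial: for `z` transcendental, `ψ z` is meromorphic at `s`; if its order is negative take `g = z`; otherwise it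
has a value `c` at `s` (a limit, `MeromorphicAt.tendsto_nhds_iff_meromorphicOrderAt_nonneg`-like) and `ψ (z - c)` has positive order (`z - c ≠ 0`).
The values of `v` on `K ∖ 0` are a nontrivial subgroup `e ℤ` of `ℤ`, `e ≥ 1` the least positive value; `E.ord g := n` if
`v g = e * n` (and `⊤` for `g = 0`).  Compare `Pool/Agent/H68/KR/PD.lean` (the same for two variables) and the AddValuation
construction there.  `residue_trdeg`: `Fin 0`.
-/

set_option autoImplicit false

open Topology Filter
open Pool.Agent.H17 (puncturedDisc)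
open Pool.Agent.H23.Fano (PrimeDivisorOver)

noncomputable section

namespace Pool.Agent.H62.LGC

variable {K : Type} [Field K] [Algebra ℂ K] {ψ : K → ℂ → ℂ}

/-- `E` is the place under the point `s`. -/
def Under (ψ : K → ℂ → ℂ) (s : ℂ) (E : PrimeDivisorOver K 1) : Prop :=
  ∃ e : ℕ, 1 ≤ e ∧ ∀ g : K, g ≠ 0 → ∃ n : ℤ, E.ord g = (n : WithTop ℤ) ∧
    meromorphicOrderAt (ψ g) s = (((e : ℤ) * n : ℤ) : WithTop ℤ)

theorem exists_under (h : Ev ψ) (hz : ∃ z : Fin 1 → K, IsTranscendenceBasis ℂ z) {s : ℂ} (hs : s ∈ puncturedDisc) :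
    ∃ E : PrimeDivisorOver K 1, Under ψ s E := by
  classical
  have hv0 : meromorphicOrderAt (ψ 0) s = ⊤ := by
    rw [meromorphicOrderAt_congr (h.zero hs)]
    exact meromorphicOrderAt_eq_top_iff.2 (Eventually.of_forall fun _ => rfl)
  have hvmul : ∀ f g : K, meromorphicOrderAt (ψ (f * g)) s =
      meromorphicOrderAt (ψ f) s + meromorphicOrderAt (ψ g) s := by
    intro f g
    rw [meromorphicOrderAt_congr (h.mul f g s hs)]
    exact meromorphicOrderAt_mul (h.mero f s hs) (h.mero g s hs)
  have hvadd : ∀ f g : K, min (meromorphicOrderAt (ψ f) s) (meromorphicOrderAt (ψ g) s) ≤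
      meromorphicOrderAt (ψ (f + g)) s := by
    intro f g
    rw [meromorphicOrderAt_congr (h.add f g s hs)]
    exact meromorphicOrderAt_add (h.mero f s hs) (h.mero g s hs)
  have hvconst : ∀ c : ℂ, c ≠ 0 → meromorphicOrderAt (ψ (algebraMap ℂ K c)) s = 0 := by
    intro c hc
    rw [meromorphicOrderAt_congr (h.const c s hs)]
    exact (tendsto_ne_zero_iff_meromorphicOrderAt_eq_zero (MeromorphicAt.const c s)).1 ⟨c, hc, tendsto_const_nhds⟩
  have hvtop : ∀ g : K, g ≠ 0 → meromorphicOrderAt (ψ g) s ≠ ⊤ := by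
    intro g hg
    exact (meromorphicOrderAt_ne_top_iff_eventually_ne_zero (h.mero g s hs)).2 (h.ne_zero hg hs)
  -- integer values
  have hex : ∀ f : K, f ≠ 0 → ∃ n : ℤ, meromorphicOrderAt (ψ f) s = (n : WithTop ℤ) := by
    intro f hf
    exact ⟨(meromorphicOrderAt (ψ f) s).untop (hvtop f hf), (WithTop.coe_untop _ _).symm⟩
  choose! val hval using hex
  have hval_mul : ∀ f g : K, f ≠ 0 → g ≠ 0 → val (f * g) = val f + val g := by
    intro f g hf hg
    have h1 := hvmul f g
    rw [hval f hf, hval g hg, hval (f * g) (mul_ne_zero hf hg)] at h1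
    exact_mod_cast h1
  have hval_one : val 1 = 0 := by
    have h1 := hval_mul 1 1 one_ne_zero one_ne_zero
    rw [mul_one] at h1
    omega
  have hval_inv : ∀ f : K, f ≠ 0 → val f⁻¹ = - val f := by
    intro f hf
    have h1 := hval_mul f f⁻¹ hf (inv_ne_zero hf)
    rw [mul_inv_cancel₀ hf, hval_one] at h1
    omega
  have hval_pow : ∀ (f : K) (n : ℕ), f ≠ 0 → val (f ^ n) = n * val f := by
    intro f n hf
    induction n with
    | zero => simp [hval_one]
    | succ n ih =>
      rw [pow_succ, hval_mul _ _ (pow_ne_zero n hf) hf, ih]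
      push_cast
      ring
  have hval_zpow : ∀ (f : K) (n : ℤ), f ≠ 0 → val (f ^ n) = n * val f := by
    intro f n hf
    obtain ⟨m, rfl | rfl⟩ := n.eq_nat_or_neg
    · rw [zpow_natCast, hval_pow f m hf]
    · rw [zpow_neg, zpow_natCast, hval_inv _ (pow_ne_zero m hf), hval_pow f m hf]
      ring
  -- a function whose order is not zero
  have hnz : ∃ f : K, f ≠ 0 ∧ val f ≠ 0 := by
    obtain ⟨z, hz⟩ := hz
    have htr : Transcendental ℂ (z 0) := (algebraicIndependent_unique_type_iff).1 hz.1
    have hne : ∀ c : ℂ, z 0 - algebraMap ℂ K c ≠ 0 := by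
      intro c hc
      apply htr
      rw [sub_eq_zero.1 hc]
      exact isAlgebraic_algebraMap c
    by_cases hneg : 0 ≤ meromorphicOrderAt (ψ (z 0)) s
    · obtain ⟨c, hc⟩ := (tendsto_nhds_iff_meromorphicOrderAt_nonneg (h.mero (z 0) s hs)).2 hneg
      refine ⟨z 0 - algebraMap ℂ K c, hne c, ?_⟩
      have h1 : Tendsto (ψ (z 0 - algebraMap ℂ K c)) (𝓝[≠] s) (𝓝 0) := by
        have h2 : Tendsto (fun w => ψ (z 0) w - ψ (algebraMap ℂ K c) w) (𝓝[≠] s) (𝓝 (c - c)) := by
          refine hc.sub ?_
          exact (tendsto_const_nhds (x := c)).congr' (h.const c s hs).symm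
        rw [sub_self] at h2
        exact h2.congr' (h.sub _ _ hs).symm
      have h3 := (tendsto_zero_iff_meromorphicOrderAt_pos (h.mero _ s hs)).1 h1
      rw [hval _ (hne c)] at h3
      have h4 : 0 < val (z 0 - algebraMap ℂ K c) := by exact_mod_cast h3
      exact h4.ne'
    · have hz0 : z 0 ≠ 0 := by
        have := hne 0
        rwa [map_zero, sub_zero] at this
      refine ⟨z 0, hz0, ?_⟩
      intro h1
      apply hneg
      rw [hval _ hz0, h1]
      rfl
  -- minimal positive value
  have hpos : ∃ n : ℕ, 0 < n ∧ ∃ t : K, t ≠ 0 ∧ val t = n := by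
    obtain ⟨f, hf0, hf⟩ := hnz
    rcases lt_or_gt_of_ne hf with h1 | h1
    · refine ⟨(-val f).toNat, by omega, f⁻¹, inv_ne_zero hf0, ?_⟩
      rw [hval_inv f hf0]
      omega
    · exact ⟨(val f).toNat, by omega, f, hf0, by omega⟩
  set e := Nat.find hpos with he
  obtain ⟨he0, t, ht0, htv⟩ := Nat.find_spec hpos
  rw [← he] at he0 htv
  have hmin : ∀ (n : ℕ) (f : K), 0 < n → f ≠ 0 → val f = n → e ≤ n :=
    fun n f hn hf h => Nat.find_min' hpos ⟨hn, f, hf, h⟩
  have heZ : (0 : ℤ) < e := by exact_mod_cast he0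
  have hdvd : ∀ f : K, f ≠ 0 → val f = e * (val f / e) := by
    intro f hf
    have h1 : val (f * t ^ (-(val f / e))) = val f - (val f / e) * e := by
      rw [hval_mul _ _ hf (zpow_ne_zero _ ht0), hval_zpow t _ ht0, htv]
      ring
    have h2 : val f - (val f / e) * e = val f % e := by
      have := Int.emod_add_mul_ediv (val f) e
      linarith
    have h3 : 0 ≤ val f % e := Int.emod_nonneg _ (ne_of_gt heZ)
    have h4 : val f % e < e := Int.emod_lt_of_pos _ heZ
    rcases h3.eq_or_lt with h5 | h5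
    · have := Int.emod_add_mul_ediv (val f) e
      omega
    · exfalso
      have h6 := hmin (val f % e).toNat (f * t ^ (-(val f / e))) (by omega)
        (mul_ne_zero hf (zpow_ne_zero _ ht0)) (by rw [h1, h2]; omega)
      omega
  set w : K → WithTop ℤ := fun f => if f = 0 then ⊤ else ((val f / e : ℤ) : WithTop ℤ) with hw
  have hw0 : w 0 = ⊤ := by simp [hw]
  have hwn : ∀ f : K, f ≠ 0 → w f = ((val f / e : ℤ) : WithTop ℤ) := by
    intro f hf
    simp [hw, hf]
  let ord : AddValuation K (WithTop ℤ) := AddValuation.of w hw0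
    (by rw [hwn 1 one_ne_zero, hval_one]; simp)
    (by
      intro f g
      by_cases hf : f = 0
      · subst hf
        rw [zero_add, hw0]
        simp
      by_cases hg : g = 0
      · subst hg
        rw [add_zero, hw0]
        simp
      by_cases hfg : f + g = 0
      · rw [hfg, hw0]
        exact le_top
      have h0 := hvadd f g
      rw [hval f hf, hval g hg, hval (f + g) hfg] at h0
      rw [hwn f hf, hwn g hg, hwn _ hfg]
      have h' : min (val f) (val g) ≤ val (f + g) := by exact_mod_cast h0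
      have : min (val f / e) (val g / e) ≤ val (f + g) / e := by
        rcases min_le_iff.mp h' with h4 | h4
        · exact le_trans (min_le_left _ _) (Int.ediv_le_ediv heZ h4)
        · exact le_trans (min_le_right _ _) (Int.ediv_le_ediv heZ h4)
      exact_mod_cast this)
    (by
      intro f g
      by_cases hf : f = 0
      · subst hf
        rw [zero_mul, hw0]
        simp
      by_cases hg : g = 0
      · subst hg
        rw [mul_zero, hw0]
        simp
      rw [hwn _ (mul_ne_zero hf hg), hwn f hf, hwn g hg, hval_mul f g hf hg]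
      have h1 := hdvd f hf
      have h2 : (val f + val g) / (e : ℤ) = val f / e + val g / e := by
        rw [Int.add_ediv_of_dvd_left ⟨_, h1⟩]
      rw [h2]
      push_cast
      rfl)
  have hord : ∀ f, ord f = w f := fun f => rfl
  have hoc : ∀ c : ℂ, c ≠ 0 → ord (algebraMap ℂ K c) = 0 := by
    intro c hc
    have hc0 : algebraMap ℂ K c ≠ 0 := (map_ne_zero _).2 hc
    have h1 := hvconst c hc
    rw [hval _ hc0] at h1
    have h2 : val (algebraMap ℂ K c) = 0 := by exact_mod_cast h1
    rw [hord, hwn _ hc0, h2]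
    simp
  refine ⟨⟨ord, ?_, ⟨t, ?_⟩, ⟨fun i => i.elim0, fun i => i.elim0, ?_⟩⟩, e, he0, ?_⟩
  · intro c
    by_cases hc : c = 0
    · subst hc
      rw [map_zero, hord, hw0]
      exact le_top
    · exact (hoc c hc).ge
  · rw [hord, hwn t ht0, htv, Int.ediv_self (ne_of_gt heZ)]
    rfl
  · intro p hp
    have hem : IsEmpty (Fin (1 - 1)) := ⟨fun i => i.elim0⟩
    obtain ⟨c, rfl⟩ := (MvPolynomial.C_surjective (R := ℂ) (Fin (1 - 1))) p
    have hc : c ≠ 0 := by
      intro hc
      apply hp
      rw [hc, map_zero]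
    rw [MvPolynomial.aeval_C]
    exact hoc c hc
  · intro g hg
    refine ⟨val g / e, hwn g hg, ?_⟩
    rw [← hdvd g hg]
    exact hval g hg

end Pool.Agent.H62.LGC
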