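import Pool.Agent.H62.LGC.NevMul

/-!
# LGC NevAlg: the characteristic function of an algebraic function

HINTS: `nevT_poly_le`: pointwise `posLog ‖p(u)‖ ≤ p.natDegree * posLog ‖u‖ + C` and
`max (-(ord p(u))) 0 ≤ p.natDegree * max (-(ord u)) 0` (if `ord u ≥ 0` then `p(u)` is analytic up to the value at the point; if `ord u = -k < 0`
then `p(u) * (z - s)^(k * deg)` is; or by Horner induction on `p` with `meromorphicOrderAt` inequalities for sums and products); `cnt_mono`, `cnt_mul`.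
`nevT_alg`: let `n = P.natDegree`, `a_j = P.coeff j`, `A_j = a_j(v)`, `L = A_n`.  Pointwise (off a discrete set), from
`u^n = -∑_{j<n} (A_j / L) u^j`: `‖u‖ ≤ 1 + ∑_{j<n} ‖A_j / L‖` (if `‖u‖ ≥ 1`: divide by `u^(n-1)`; `n ≥ 1` because `L ≠ 0` and the relation), so
`posLog ‖u‖ ≤ C + ∑_j posLog ‖A_j‖ + n * posLog ‖L⁻¹‖`-like; for the orders: `ord u ≥ min(0, min_j (ord A_j - ord L))` because otherwise the term
`L u^n` has order strictly smaller than the other ones; so `max (-ord u) 0 ≤ ∑_j max (-ord A_j) 0 + n max (ord L) 0`-like (the `A_j` which are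
identically zero near `s` are left out).  So `nevT u ≤ ∑_j nevT A_j + n * nevT (L⁻¹) + C` and `MeroPunct.nevT_inv`, `nevT_poly_le`.
A cleaner way: `w := L * u` is integral: `w^n + ∑_{j<n} A_j L^(n-1-j) w^j = 0` with coefficients polynomials in `v`, so
`‖w‖ ≤ 1 + ∑ ‖A_j L^(n-1-j)‖` and `-ord w ≤ max over the coefficients`; then `u = w * L⁻¹` and `nevT_mul_le`.
-/

set_option autoImplicit false

open Filter Topology MeasureTheory
open Pool.Agent.H92.GGL (ordZ)
open Pool.Agent.H62.FC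

noncomputable section

namespace Pool.Agent.H62.LGC

variable {R₀ R₁ : ℝ}

private theorem nrm_poly (p : Polynomial ℂ) :
    ∃ M : ℝ, 0 ≤ M ∧ ∀ w : ℂ, ‖p.eval w‖ ≤ M * max 1 ‖w‖ ^ p.natDegree := by
  refine ⟨∑ i ∈ Finset.range (p.natDegree + 1), ‖p.coeff i‖, Finset.sum_nonneg fun _ _ => norm_nonneg _,
    fun w => ?_⟩
  rw [Polynomial.eval_eq_sum_range, Finset.sum_mul]
  refine (norm_sum_le _ _).trans (Finset.sum_le_sum fun i hi => ?_)
  rw [norm_mul, norm_pow]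
  refine mul_le_mul_of_nonneg_left ?_ (norm_nonneg _)
  have hi' : i ≤ p.natDegree := by
    have := Finset.mem_range.mp hi
    omega
  calc ‖w‖ ^ i ≤ max 1 ‖w‖ ^ i := pow_le_pow_left₀ (norm_nonneg _) (le_max_right _ _) _
    _ ≤ max 1 ‖w‖ ^ p.natDegree := pow_le_pow_right₀ (le_max_left _ _) hi'

private theorem posLog_le_of {a b M : ℝ} {D : ℕ} (ha : 0 ≤ a) (hb : 0 ≤ b) (hM : 1 ≤ M)
    (h : a ≤ M * max 1 b ^ D) : Real.posLog a ≤ D * Real.posLog b + Real.log M := by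
  rw [Real.posLog_eq_log_max_one ha, Real.posLog_eq_log_max_one hb]
  have h1 : (1 : ℝ) ≤ max 1 b := le_max_left _ _
  have h2 : (1 : ℝ) ≤ max 1 b ^ D := one_le_pow₀ h1
  have h3 : max 1 a ≤ M * max 1 b ^ D := max_le (by nlinarith) h
  calc Real.log (max 1 a) ≤ Real.log (M * max 1 b ^ D) :=
        Real.log_le_log (lt_of_lt_of_le one_pos (le_max_left _ _)) h3
    _ = Real.log M + D * Real.log (max 1 b) := by
        rw [Real.log_mul (by positivity) (by positivity), Real.log_pow]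
    _ = D * Real.log (max 1 b) + Real.log M := by ring

private theorem ord_sum_ge {ι : Type*} (S : Finset ι) (f : ι → ℂ → ℂ) {s : ℂ} {m : WithTop ℤ}
    (hf : ∀ i ∈ S, MeromorphicAt (f i) s) (hm : ∀ i ∈ S, m ≤ meromorphicOrderAt (f i) s) :
    MeromorphicAt (fun z => ∑ i ∈ S, f i z) s ∧ m ≤ meromorphicOrderAt (fun z => ∑ i ∈ S, f i z) s := by
  classical
  induction S using Finset.induction_on with
  | empty =>
    constructor
    · simp
    · have : meromorphicOrderAt (fun z : ℂ => ∑ i ∈ (∅ : Finset ι), f i z) s = ⊤ := by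
        rw [meromorphicOrderAt_eq_top_iff]
        exact Filter.Eventually.of_forall fun z => by simp
      rw [this]
      exact le_top
  | insert a S ha ih =>
    obtain ⟨h1, h2⟩ := ih (fun i hi => hf i (Finset.mem_insert_of_mem hi))
      (fun i hi => hm i (Finset.mem_insert_of_mem hi))
    have h3 := hf a (Finset.mem_insert_self a S)
    have h4 := hm a (Finset.mem_insert_self a S)
    have e : (fun z => ∑ i ∈ insert a S, f i z) = (f a) + fun z => ∑ i ∈ S, f i z := by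
      funext z
      rw [Finset.sum_insert ha]
      rfl
    rw [e]
    exact ⟨h3.add h1, (le_min h4 h2).trans (meromorphicOrderAt_add h3 h1)⟩

private theorem ord_term_ge {u : ℂ → ℂ} {s : ℂ} (hu : MeromorphicAt u s) {a : ℤ}
    (ha : meromorphicOrderAt u s = (a : WithTop ℤ)) {b : ℤ} {c : ℂ → ℂ} (hc : MeromorphicAt c s)
    (hcb : ((b : ℤ) : WithTop ℤ) ≤ meromorphicOrderAt c s) (j : ℕ) :
    MeromorphicAt (fun z => c z * u z ^ j) s ∧
      ((b + j * a : ℤ) : WithTop ℤ) ≤ meromorphicOrderAt (fun z => c z * u z ^ j) s := by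
  have h1 : MeromorphicAt (fun z => u z ^ j) s := hu.pow j
  have h2 : meromorphicOrderAt (fun z => u z ^ j) s = ((j * a : ℤ) : WithTop ℤ) := by
    have := fun_meromorphicOrderAt_pow hu (n := j)
    rw [this, ha]
    push_cast
    rfl
  refine ⟨hc.mul h1, ?_⟩
  rw [fun_meromorphicOrderAt_mul hc h1, h2, WithTop.coe_add]
  exact add_le_add_left hcb _

private theorem ord_poly_ge {v : ℂ → ℂ} {s : ℂ} (hv : MeromorphicAt v s) (hv' : meromorphicOrderAt v s ≠ ⊤)
    (p : Polynomial ℂ) :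
    MeromorphicAt (fun z => p.eval (v z)) s ∧
      ((-((p.natDegree : ℤ) * max (-(ordZ v s)) 0) : ℤ) : WithTop ℤ) ≤
        meromorphicOrderAt (fun z => p.eval (v z)) s := by
  have ha : meromorphicOrderAt v s = ((ordZ v s : ℤ) : WithTop ℤ) :=
    (Pool.Agent.H92.GGL.ordZ_cast hv').symm
  have e : (fun z => p.eval (v z)) = fun z => ∑ i ∈ Finset.range (p.natDegree + 1), p.coeff i * v z ^ i := by
    funext z
    rw [Polynomial.eval_eq_sum_range]
  rw [e]
  have hc : ∀ i, MeromorphicAt (fun _ : ℂ => p.coeff i) s := fun i => MeromorphicAt.const _ s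
  have hc0 : ∀ i, (((0 : ℤ)) : WithTop ℤ) ≤ meromorphicOrderAt (fun _ : ℂ => p.coeff i) s := fun i =>
    (analyticAt_const : AnalyticAt ℂ (fun _ : ℂ => p.coeff i) s).meromorphicOrderAt_nonneg
  apply ord_sum_ge
  · exact fun i _ => (ord_term_ge hv ha (hc i) (hc0 i) i).1
  · intro i hi
    refine le_trans ?_ (ord_term_ge hv ha (hc i) (hc0 i) i).2
    rw [WithTop.coe_le_coe, zero_add]
    have hi' : (i : ℤ) ≤ p.natDegree := by
      have := Finset.mem_range.mp hi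
      omega
    have h1 : -(max (-(ordZ v s)) 0) ≤ ordZ v s := by
      have := le_max_left (-(ordZ v s)) 0
      linarith
    have h2 : 0 ≤ max (-(ordZ v s)) 0 := le_max_right _ _
    calc -((p.natDegree : ℤ) * max (-(ordZ v s)) 0) ≤ -((i : ℤ) * max (-(ordZ v s)) 0) := by
          have := mul_le_mul_of_nonneg_right hi' h2
          linarith
      _ = (i : ℤ) * -(max (-(ordZ v s)) 0) := by ring
      _ ≤ (i : ℤ) * ordZ v s := mul_le_mul_of_nonneg_left h1 (Int.natCast_nonneg i)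

private theorem locFin_comp {w : ℂ → ℝ} (hw : LocFin R₀ w) {f : ℝ → ℝ} (hf : f 0 = 0) :
    LocFin R₀ (fun s => f (w s)) := by
  intro r b hr hb
  refine (hw r b hr hb).subset ?_
  rintro s ⟨h1, h2, h3⟩
  refine ⟨h1, h2, fun h => h3 ?_⟩
  change f (w s) = 0
  rw [h, hf]

private theorem nevT_le_of {a v : ℂ → ℂ} (ha : MeroPunct R₀ a) (hv : MeroPunct R₀ v) (h : R₁ < R₀)
    {M : ℝ} (hM : 1 ≤ M) (D : ℕ)
    (h1 : ∀ s : ℂ, 0 < ‖s‖ → ‖s‖ < R₀ → ∀ᶠ z in 𝓝[≠] s, ‖a z‖ ≤ M * max 1 ‖v z‖ ^ D)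
    (h2 : ∀ s : ℂ, 0 < ‖s‖ → ‖s‖ < R₀ →
      ((-((D : ℤ) * max (-(ordZ v s)) 0) : ℤ) : WithTop ℤ) ≤ meromorphicOrderAt a s)
    {x : ℝ} (hx : Real.exp (-x) < R₁) : nevT a R₁ x ≤ D * nevT v R₁ x + Real.log M := by
  have hx0 : Real.exp (-x) < R₀ := hx.trans h
  have hr : 0 < Real.exp (-x) := Real.exp_pos _
  have hI1 : CircleIntegrable (fun z => Real.posLog ‖a z‖) 0 (Real.exp (-x)) :=
    ha.circleIntegrable_posLog hx0
  have hI2 : CircleIntegrable (fun z => Real.posLog ‖v z‖) 0 (Real.exp (-x)) :=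
    hv.circleIntegrable_posLog hx0
  have hI3 : CircleIntegrable (fun z => (D : ℝ) * Real.posLog ‖v z‖) 0 (Real.exp (-x)) :=
    hI2.const_fun_smul (a := (D : ℝ))
  have hI4 : CircleIntegrable (fun _ : ℂ => Real.log M) 0 (Real.exp (-x)) := circleIntegrable_const _ _ _
  have hI5 : CircleIntegrable (fun z => (D : ℝ) * Real.posLog ‖v z‖ + Real.log M) 0 (Real.exp (-x)) :=
    hI3.add hI4
  have hmean : mean (fun z => Real.posLog ‖a z‖) x ≤
      D * mean (fun z => Real.posLog ‖v z‖) x + Real.log M := by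
    refine (mean_mono_of_eventually hx0 hI1 hI5 fun s hs1 hs2 => ?_).trans (le_of_eq ?_)
    · filter_upwards [h1 s hs1 hs2] with z hz
      exact posLog_le_of (norm_nonneg _) (norm_nonneg _) hM hz
    · unfold mean
      rw [Real.circleAverage_fun_add hI3 hI4, Real.circleAverage_const]
      congr 1
      exact Real.circleAverage_fun_smul (a := (D : ℝ)) (f := fun z => Real.posLog ‖v z‖)
  have hL1 : LocFin R₀ (fun s => max (-(ordZ a s : ℝ)) 0) :=
    locFin_comp (f := fun t => max (-t) 0) ha.locFin (by simp)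
  have hL2 : LocFin R₀ (fun s => max (-(ordZ v s : ℝ)) 0) :=
    locFin_comp (f := fun t => max (-t) 0) hv.locFin (by simp)
  have hL3 : LocFin R₀ (fun s => (D : ℝ) * max (-(ordZ v s : ℝ)) 0) :=
    locFin_comp (f := fun t => (D : ℝ) * t) hL2 (by simp)
  have hcnt : cnt (fun s => max (-(ordZ a s : ℝ)) 0) R₁ (Real.exp (-x)) ≤
      D * cnt (fun s => max (-(ordZ v s : ℝ)) 0) R₁ (Real.exp (-x)) := by
    rw [← cnt_mul (D : ℝ) h hL2 hr]
    refine cnt_mono h hL1 hL3 hr fun s hs1 hs2 => ?_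
    have hs1' : 0 < ‖s‖ := hr.trans hs1
    have hs2' : ‖s‖ < R₀ := hs2.trans h
    have h3 := h2 s hs1' hs2'
    rw [← Pool.Agent.H92.GGL.ordZ_cast (ha.ord s hs1' hs2'), WithTop.coe_le_coe] at h3
    have h4 : -((D : ℝ) * max (-(ordZ v s : ℝ)) 0) ≤ (ordZ a s : ℝ) := by exact_mod_cast h3
    refine max_le (by linarith) (mul_nonneg (Nat.cast_nonneg _) (le_max_right _ _))
  unfold nevT
  rw [mul_add]
  linarith

theorem nevT_poly_le {u : ℂ → ℂ} (hu : MeroPunct R₀ u) (h : R₁ < R₀) (p : Polynomial ℂ)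
    (hp : MeroPunct R₀ fun z => p.eval (u z)) :
    ∃ C : ℝ, ∀ x, Real.exp (-x) < R₁ → nevT (fun z => p.eval (u z)) R₁ x ≤ p.natDegree * nevT u R₁ x + C := by
  obtain ⟨M, hM0, hM⟩ := nrm_poly p
  refine ⟨Real.log (max 1 M), fun x hx => ?_⟩
  refine nevT_le_of hp hu h (le_max_left _ _) p.natDegree (fun s _ _ => ?_) (fun s hs1 hs2 => ?_) hx
  · refine Filter.Eventually.of_forall fun z => (hM (u z)).trans ?_
    exact mul_le_mul_of_nonneg_right (le_max_right _ _) (by positivity)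
  · exact (ord_poly_ge (hu.mero s hs1 hs2) (hu.ord s hs1 hs2) p).2

private theorem norm_le_of_monic {w : ℂ} {n : ℕ} {b : ℕ → ℂ}
    (h : w ^ n + ∑ j ∈ Finset.range n, b j * w ^ j = 0) : ‖w‖ ≤ 1 + ∑ j ∈ Finset.range n, ‖b j‖ := by
  have hS : 0 ≤ ∑ j ∈ Finset.range n, ‖b j‖ := Finset.sum_nonneg fun _ _ => norm_nonneg _
  rcases le_total ‖w‖ 1 with h1 | h1
  · linarith
  rcases Nat.eq_zero_or_pos n with rfl | hn
  · simp at h
  obtain ⟨m, rfl⟩ : ∃ m, n = m + 1 := ⟨n - 1, by omega⟩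
  have h2 : ‖w‖ ^ (m + 1) ≤ (∑ j ∈ Finset.range (m + 1), ‖b j‖) * ‖w‖ ^ m := by
    have h3 : w ^ (m + 1) = -∑ j ∈ Finset.range (m + 1), b j * w ^ j := by
      linear_combination h
    rw [← norm_pow, h3, norm_neg, Finset.sum_mul]
    refine (norm_sum_le _ _).trans (Finset.sum_le_sum fun j hj => ?_)
    rw [norm_mul, norm_pow]
    refine mul_le_mul_of_nonneg_left ?_ (norm_nonneg _)
    exact pow_le_pow_right₀ h1 (by have := Finset.mem_range.mp hj; omega)
  have h4 : 0 < ‖w‖ ^ m := by positivity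
  rw [pow_succ, mul_comm] at h2
  have h5 : ‖w‖ ≤ ∑ j ∈ Finset.range (m + 1), ‖b j‖ := le_of_mul_le_mul_right h2 h4
  linarith

theorem nevT_alg {u v : ℂ → ℂ} (hu : MeroPunct R₀ u) (hv : MeroPunct R₀ v) (h1 : 0 < R₁) (h : R₁ < R₀)
    (P : Polynomial (Polynomial ℂ))
    (hP : ∀ s : ℂ, 0 < ‖s‖ → ‖s‖ < R₀ → ∀ j, P.coeff j ≠ 0 → ∀ᶠ z in 𝓝[≠] s, (P.coeff j).eval (v z) ≠ 0)
    (hP0 : P ≠ 0)
    (hrel : ∀ s : ℂ, 0 < ‖s‖ → ‖s‖ < R₀ → ∀ᶠ z in 𝓝[≠] s,
      ∑ j ∈ Finset.range (P.natDegree + 1), (P.coeff j).eval (v z) * u z ^ j = 0) :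
    ∃ C : ℝ, ∀ x, Real.exp (-x) < R₁ → nevT u R₁ x ≤ C * nevT v R₁ x + C * (1 + |x|) := by
  classical
  set n := P.natDegree with hn
  have hlead : P.coeff n ≠ 0 := by
    rw [hn]
    exact Polynomial.leadingCoeff_ne_zero.mpr hP0
  -- the leading coefficient
  set L : ℂ → ℂ := fun z => (P.coeff n).eval (v z) with hL
  have hLne : ∀ s : ℂ, 0 < ‖s‖ → ‖s‖ < R₀ → ∀ᶠ z in 𝓝[≠] s, L z ≠ 0 := fun s hs1 hs2 => hP s hs1 hs2 n hlead
  have hLM : MeroPunct R₀ L := by
    refine ⟨fun s hs1 hs2 => (ord_poly_ge (hv.mero s hs1 hs2) (hv.ord s hs1 hs2) _).1, fun s hs1 hs2 => ?_⟩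
    rw [meromorphicOrderAt_ne_top_iff_eventually_ne_zero
      (ord_poly_ge (hv.mero s hs1 hs2) (hv.ord s hs1 hs2) (P.coeff n)).1]
    exact hLne s hs1 hs2
  -- the degree is positive
  have hn1 : 1 ≤ n := by
    by_contra hn0
    have hn0' : n = 0 := by omega
    have hs1 : 0 < ‖(R₁ : ℂ)‖ := by
      rw [Complex.norm_real, Real.norm_eq_abs, abs_of_pos h1]
      exact h1
    have hs2 : ‖(R₁ : ℂ)‖ < R₀ := by
      rw [Complex.norm_real, Real.norm_eq_abs, abs_of_pos h1]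
      exact h
    obtain ⟨z, hz1, hz2⟩ := ((hLne _ hs1 hs2).and (hrel _ hs1 hs2)).exists
    apply hz1
    rw [hn0'] at hz2
    simp only [zero_add, Finset.range_one, Finset.sum_singleton, pow_zero, mul_one] at hz2
    rw [hL]
    simp only
    rw [hn0']
    exact hz2
  -- the integral function w
  set q : ℕ → Polynomial ℂ := fun j => P.coeff j * P.coeff n ^ (n - 1 - j) with hq
  set w : ℂ → ℂ := fun z => L z * u z with hw
  have hwM : MeroPunct R₀ w := hLM.mul hu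
  have hwrel : ∀ s : ℂ, 0 < ‖s‖ → ‖s‖ < R₀ → ∀ᶠ z in 𝓝[≠] s,
      w z ^ n + ∑ j ∈ Finset.range n, (q j).eval (v z) * w z ^ j = 0 := by
    intro s hs1 hs2
    filter_upwards [hrel s hs1 hs2] with z hz
    rw [Finset.sum_range_succ] at hz
    have e1 : ∀ j ∈ Finset.range n, (q j).eval (v z) * w z ^ j =
        L z ^ (n - 1) * ((P.coeff j).eval (v z) * u z ^ j) := by
      intro j hj
      have hj' : j ≤ n - 1 := by
        have := Finset.mem_range.mp hj
        omega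
      have e2 : L z ^ (n - 1) = L z ^ (n - 1 - j) * L z ^ j := by
        rw [← pow_add, Nat.sub_add_cancel hj']
      rw [e2, hq, hw]
      simp only [Polynomial.eval_mul, Polynomial.eval_pow]
      rw [mul_pow]
      ring
    rw [Finset.sum_congr rfl e1, ← Finset.mul_sum]
    have e3 : w z ^ n = L z ^ (n - 1) * (L z * u z ^ n) := by
      rw [hw]
      simp only
      rw [mul_pow, ← mul_assoc, ← pow_succ, Nat.sub_add_cancel hn1]
    rw [e3, ← mul_add]
    have e4 : L z * u z ^ n + ∑ j ∈ Finset.range n, (P.coeff j).eval (v z) * u z ^ j = 0 := by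
      rw [add_comm]
      exact hz
    rw [e4, mul_zero]
  -- bounds of the coefficients
  choose Mq hMq0 hMq using fun j => nrm_poly (q j)
  set D : ℕ := ∑ j ∈ Finset.range n, (q j).natDegree with hD
  set M : ℝ := 1 + ∑ j ∈ Finset.range n, Mq j with hMdef
  have hM1 : 1 ≤ M := by
    have : 0 ≤ ∑ j ∈ Finset.range n, Mq j := Finset.sum_nonneg fun j _ => hMq0 j
    rw [hMdef]
    linarith
  have hdeg : ∀ j ∈ Finset.range n, (q j).natDegree ≤ D := fun j hj =>
    Finset.single_le_sum (f := fun j => (q j).natDegree) (fun _ _ => Nat.zero_le _) hj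
  have hA1 : ∀ s : ℂ, 0 < ‖s‖ → ‖s‖ < R₀ → ∀ᶠ z in 𝓝[≠] s, ‖w z‖ ≤ M * max 1 ‖v z‖ ^ D := by
    intro s hs1 hs2
    filter_upwards [hwrel s hs1 hs2] with z hz
    have hm1 : (1 : ℝ) ≤ max 1 ‖v z‖ := le_max_left _ _
    refine (norm_le_of_monic hz).trans ?_
    rw [hMdef, add_mul, one_mul, Finset.sum_mul]
    refine add_le_add (one_le_pow₀ hm1) (Finset.sum_le_sum fun j hj => (hMq j (v z)).trans ?_)
    exact mul_le_mul_of_nonneg_left (pow_le_pow_right₀ hm1 (hdeg j hj)) (hMq0 j)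
  have hA2 : ∀ s : ℂ, 0 < ‖s‖ → ‖s‖ < R₀ →
      ((-((D : ℤ) * max (-(ordZ v s)) 0) : ℤ) : WithTop ℤ) ≤ meromorphicOrderAt w s := by
    intro s hs1 hs2
    set k : ℤ := max (-(ordZ v s)) 0 with hk
    have hk0 : 0 ≤ k := le_max_right _ _
    have hwo : meromorphicOrderAt w s = ((ordZ w s : ℤ) : WithTop ℤ) :=
      (Pool.Agent.H92.GGL.ordZ_cast (hwM.ord s hs1 hs2)).symm
    rw [hwo, WithTop.coe_le_coe]
    by_contra hlt
    push Not at hlt
    set a : ℤ := ordZ w s with ha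
    have hDk : 0 ≤ (D : ℤ) * k := mul_nonneg (Int.natCast_nonneg _) hk0
    have ha0 : a < 0 := by linarith
    -- the lower terms
    have hterm : ∀ j ∈ Finset.range n, MeromorphicAt (fun z => (q j).eval (v z) * w z ^ j) s ∧
        (((n : ℤ) * a + 1 : ℤ) : WithTop ℤ) ≤ meromorphicOrderAt (fun z => (q j).eval (v z) * w z ^ j) s := by
      intro j hj
      obtain ⟨g1, g2⟩ := ord_poly_ge (hv.mero s hs1 hs2) (hv.ord s hs1 hs2) (q j)
      obtain ⟨g3, g4⟩ := ord_term_ge (hwM.mero s hs1 hs2) hwo g1 g2 j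
      refine ⟨g3, le_trans ?_ g4⟩
      rw [WithTop.coe_le_coe]
      have g5 : ((q j).natDegree : ℤ) * k ≤ (D : ℤ) * k :=
        mul_le_mul_of_nonneg_right (by exact_mod_cast hdeg j hj) hk0
      have g6 : (j : ℤ) + 1 ≤ n := by
        have := Finset.mem_range.mp hj
        omega
      have g7 : ((n : ℤ) - j) * a ≤ a := by nlinarith
      have g8 : a + 1 ≤ -((D : ℤ) * k) := by linarith
      change (n : ℤ) * a + 1 ≤ -(((q j).natDegree : ℤ) * k) + (j : ℤ) * a
      nlinarith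
    obtain ⟨g1, g2⟩ := ord_sum_ge (Finset.range n) (fun j z => (q j).eval (v z) * w z ^ j)
      (fun j hj => (hterm j hj).1) (fun j hj => (hterm j hj).2)
    have g3 : meromorphicOrderAt (fun z => w z ^ n) s = (((n : ℤ) * a : ℤ) : WithTop ℤ) := by
      have := fun_meromorphicOrderAt_pow (hwM.mero s hs1 hs2) (n := n)
      rw [this, hwo]
      push_cast
      rfl
    have g4 : meromorphicOrderAt (fun z => w z ^ n) s <
        meromorphicOrderAt (fun z => ∑ j ∈ Finset.range n, (q j).eval (v z) * w z ^ j) s := by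
      refine lt_of_lt_of_le ?_ g2
      rw [g3, WithTop.coe_lt_coe]
      linarith
    have g5 := meromorphicOrderAt_add_eq_left_of_lt g1 g4
    have g6 : meromorphicOrderAt ((fun z => w z ^ n) +
        fun z => ∑ j ∈ Finset.range n, (q j).eval (v z) * w z ^ j) s = ⊤ := by
      rw [meromorphicOrderAt_eq_top_iff]
      exact hwrel s hs1 hs2
    rw [g6, g3] at g5
    exact WithTop.coe_ne_top g5.symm
  have hTw : ∀ x, Real.exp (-x) < R₁ → nevT w R₁ x ≤ D * nevT v R₁ x + Real.log M := fun x hx =>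
    nevT_le_of hwM hv h hM1 D hA1 hA2 hx
  obtain ⟨C₁, hC₁⟩ := nevT_poly_le hv h (P.coeff n) hLM
  obtain ⟨C₂, hC₂⟩ := hLM.nevT_inv h1 h
  have hC₂0 : 0 ≤ |C₂| := abs_nonneg _
  have hlog : 0 ≤ Real.log M := Real.log_nonneg hM1
  refine ⟨D + (P.coeff n).natDegree + Real.log M + |C₁| + |C₂|, fun x hx => ?_⟩
  have hx0 : Real.exp (-x) < R₀ := hx.trans h
  have t1 : nevT u R₁ x = nevT (fun z => w z * (L z)⁻¹) R₁ x := by
    refine nevT_congr hu (hwM.mul hLM.inv) h (fun s hs1 hs2 => ?_) hx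
    filter_upwards [hLne s hs1 hs2] with z hz
    rw [hw]
    simp only
    field_simp
  have t2 : nevT (fun z => w z * (L z)⁻¹) R₁ x ≤ nevT w R₁ x + nevT (fun z => (L z)⁻¹) R₁ x :=
    nevT_mul_le hwM hLM.inv h hx
  have t3 := hTw x hx
  have t4 := (abs_le.mp (hC₂ x hx)).2
  have t5 : nevT L R₁ x ≤ (P.coeff n).natDegree * nevT v R₁ x + C₁ := hC₁ x hx
  have hv0 := nevT_nonneg v R₁ x
  have hx1 := abs_nonneg x
  have t6 : C₂ * (1 + |x|) ≤ |C₂| * (1 + |x|) :=
    mul_le_mul_of_nonneg_right (le_abs_self _) (by linarith)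
  have t7 := le_abs_self C₁
  have t8 := abs_nonneg C₁
  have hdn : (0 : ℝ) ≤ (P.coeff n).natDegree := Nat.cast_nonneg _
  have hDn : (0 : ℝ) ≤ D := Nat.cast_nonneg _
  rw [t1]
  have t9 : nevT (fun z => w z * (L z)⁻¹) R₁ x ≤
      (D * nevT v R₁ x + Real.log M) + (((P.coeff n).natDegree * nevT v R₁ x + |C₁|) + |C₂| * (1 + |x|)) := by
    linarith
  refine t9.trans ?_
  have t10 : 0 ≤ Real.log M * nevT v R₁ x := mul_nonneg hlog hv0
  have t11 : 0 ≤ |C₁| * nevT v R₁ x := mul_nonneg t8 hv0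
  have t12 : 0 ≤ |C₂| * nevT v R₁ x := mul_nonneg hC₂0 hv0
  have t13 : 0 ≤ Real.log M * |x| := mul_nonneg hlog hx1
  have t14 : 0 ≤ |C₁| * |x| := mul_nonneg t8 hx1
  have t15 : 0 ≤ (D : ℝ) * (1 + |x|) := mul_nonneg hDn (by linarith)
  have t16 : 0 ≤ ((P.coeff n).natDegree : ℝ) * (1 + |x|) := mul_nonneg hdn (by linarith)
  nlinarith

end Pool.Agent.H62.LGC
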