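import Pool.Agent.H62.LGC.NevMul
import Pool.Agent.H62.FC.LogDeriv
import Pool.Agent.H17.EntireCurves

/-!
# LGC NevLog: functions bounded by logarithmic derivatives

PROOF: `cnt` of the weight `max (-(ordZ w s)) 0` is `0` (all the weights in the annulus are `0`); `mean_mono_of_eventually`; the mean of a
finite sum (`Real.circleAverage_sum`-like or induction on `S`), circle integrability of `posLog ‖u' / u‖`: `deriv (u l) / u l` is meromorphic
(`MeromorphicAt.deriv`, `MeromorphicOn`), see how `Pool/Agent/H62/FC/LogDeriv.lean` gets `CircleIntegrable` for it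
(`circleIntegrable_posLog_norm`).
-/

set_option autoImplicit false

open Filter Topology MeasureTheory
open Pool.Agent.H62.FC
open Pool.Agent.H17 (puncturedDisc)

noncomputable section

namespace Pool.Agent.H62.LGC

theorem nevT_le_logDeriv {ι : Type} (S : Finset ι) {w : ℂ → ℂ} (hw : MeroPunct 1 w)
    (h0 : ∀ s ∈ puncturedDisc, 0 ≤ meromorphicOrderAt w s) {u : ι → ℂ → ℂ} (hu : ∀ l ∈ S, MeroPunct 1 (u l)) {m : ℕ} {C : ℝ}
    (hb : ∀ s ∈ puncturedDisc, ∀ᶠ z in 𝓝[≠] s,
      Real.posLog ‖w z‖ ≤ C + m * ∑ l ∈ S, Real.posLog ‖deriv (u l) z / u l z‖) {R₁ : ℝ} (h1 : R₁ < 1) {x : ℝ}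
    (hx : Real.exp (-x) < R₁) :
    nevT w R₁ x ≤ C + m * ∑ l ∈ S, mean (fun z => Real.posLog ‖deriv (u l) z / u l z‖) x := by
  have hx1 : Real.exp (-x) < 1 := hx.trans h1
  have hr : 0 < Real.exp (-x) := Real.exp_pos _
  have hmem : ∀ s : ℂ, 0 < ‖s‖ → ‖s‖ < 1 → s ∈ puncturedDisc := by
    intro s hs0 hs1
    refine ⟨?_, ?_⟩
    · rw [Metric.mem_ball, dist_zero_right]
      exact hs1
    · intro hs
      rw [Set.mem_singleton_iff] at hs
      rw [hs, norm_zero] at hs0
      exact lt_irrefl _ hs0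
  -- the counting function
  have hcnt : cnt (fun s => max (-(Pool.Agent.H92.GGL.ordZ w s : ℝ)) 0) R₁ (Real.exp (-x)) = 0 := by
    unfold cnt
    refine finsum_mem_eq_zero_of_forall_eq_zero fun s hs => ?_
    have hs0 : 0 < ‖s‖ := hr.trans hs.1
    have hs1 : ‖s‖ < 1 := hs.2.trans h1
    have h2 := h0 s (hmem s hs0 hs1)
    have h3 : 0 ≤ Pool.Agent.H92.GGL.ordZ w s := by
      rw [← Pool.Agent.H92.GGL.ordZ_cast (hw.ord s hs0 hs1)] at h2
      exact WithTop.coe_nonneg.1 h2
    have h4 : (0 : ℝ) ≤ (Pool.Agent.H92.GGL.ordZ w s : ℝ) := by exact_mod_cast h3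
    have h5 : max (-(Pool.Agent.H92.GGL.ordZ w s : ℝ)) 0 = 0 := max_eq_right (by linarith)
    change max (-(Pool.Agent.H92.GGL.ordZ w s : ℝ)) 0 * _ = 0
    rw [h5, zero_mul]
  -- integrability
  have hI : ∀ l ∈ S, CircleIntegrable (fun z => Real.posLog ‖deriv (u l) z / u l z‖) 0
      (Real.exp (-x)) := by
    intro l hl
    apply MeromorphicOn.circleIntegrable_posLog_norm
    intro z hz
    rw [mem_sphere_zero_iff_norm, abs_of_pos hr] at hz
    have hm := (hu l hl).mero z (by rw [hz]; exact hr) (by rw [hz]; exact hx1)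
    exact hm.deriv.fun_div hm
  have hIs : CircleIntegrable (fun z => ∑ l ∈ S, Real.posLog ‖deriv (u l) z / u l z‖) 0
      (Real.exp (-x)) := CircleIntegrable.fun_sum S hI
  have hIm : CircleIntegrable (fun z => (m : ℝ) * ∑ l ∈ S, Real.posLog ‖deriv (u l) z / u l z‖) 0
      (Real.exp (-x)) := CircleIntegrable.const_fun_smul (a := (m : ℝ)) hIs
  have hIc : CircleIntegrable (fun _ : ℂ => C) 0 (Real.exp (-x)) := circleIntegrable_const _ _ _
  have hI2 : CircleIntegrable
      (fun z => C + (m : ℝ) * ∑ l ∈ S, Real.posLog ‖deriv (u l) z / u l z‖) 0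
      (Real.exp (-x)) := CircleIntegrable.fun_add hIc hIm
  have hmean : mean (fun z => Real.posLog ‖w z‖) x ≤
      mean (fun z => C + (m : ℝ) * ∑ l ∈ S, Real.posLog ‖deriv (u l) z / u l z‖) x :=
    mean_mono_of_eventually hx1 (hw.circleIntegrable_posLog hx1) hI2
      fun s hs0 hs1 => hb s (hmem s hs0 hs1)
  have heq : mean (fun z => C + (m : ℝ) * ∑ l ∈ S, Real.posLog ‖deriv (u l) z / u l z‖) x =
      C + m * ∑ l ∈ S, mean (fun z => Real.posLog ‖deriv (u l) z / u l z‖) x := by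
    unfold mean
    rw [Real.circleAverage_fun_add hIc hIm, Real.circleAverage_const]
    congr 1
    have e1 := Real.circleAverage_fun_smul (a := (m : ℝ)) (c := (0 : ℂ)) (R := Real.exp (-x))
      (f := fun z => ∑ l ∈ S, Real.posLog ‖deriv (u l) z / u l z‖)
    simp only [smul_eq_mul] at e1
    rw [e1, Real.circleAverage_fun_sum hI]
  unfold nevT
  rw [hcnt, add_zero, ← heq]
  exact hmean

end Pool.Agent.H62.LGC
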