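import Pool.Agent.H62.LGC.Bound
import Pool.Agent.H62.LGC.NevAlg
import Pool.Agent.H62.LGC.NevLog
import Pool.Agent.H62.FC.CharMero

/-!
# LGC Main: the functions of a curve of log general type along a map from the punctured disc

The functions of a curve of log general type are meromorphic at the puncture along a map from the punctured disc to the curve.
-/

set_option autoImplicit false

open Topology Filter MeasureTheory
open Pool.Agent.H17 (puncturedDisc)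
open Pool.Agent.H23.Fano (Form PrimeDivisorOver)
open Pool.Agent.H17LG.Variety (PoleAtMost IsLogGeneralType)
open Pool.Agent.H62.FC

noncomputable section

namespace Pool.Agent.H62.LGC

variable {K : Type} [Field K] [Algebra ℂ K] {ψ : K → ℂ → ℂ}

theorem Main_mem {s : ℂ} (h0 : 0 < ‖s‖) (h1 : ‖s‖ < 1) : s ∈ puncturedDisc :=
  ⟨mem_ball_zero_iff.2 h1, norm_pos_iff.1 h0⟩

theorem Main_eventually_mem {s : ℂ} (hs : s ∈ puncturedDisc) : ∀ᶠ z in 𝓝[≠] s, z ∈ puncturedDisc := by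
  have h : ∀ᶠ z in 𝓝 s, z ∈ puncturedDisc := (Metric.isOpen_ball.sdiff isClosed_singleton).mem_nhds hs
  exact h.filter_mono nhdsWithin_le_nhds

/-- The derivative of a nonconstant function does not vanish. -/
theorem Ev.deriv_ne (h : Ev ψ) {a : K} (ha : Transcendental ℂ a) {s : ℂ} (hs : s ∈ puncturedDisc) :
    ∀ᶠ z in 𝓝[≠] s, deriv (ψ a) z ≠ 0 := by
  have hm : MeromorphicAt (deriv (ψ a)) s := (h.mero a s hs).deriv
  rcases hm.eventually_eq_zero_or_eventually_ne_zero with h0 | h0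
  swap
  · exact h0
  exfalso
  have h1 : ∀ᶠ z in 𝓝[≠] s, AnalyticAt ℂ (ψ a) z := (h.mero a s hs).eventually_analyticAt
  have h2 : ∀ᶠ z in 𝓝[≠] s, ∀ᶠ w in 𝓝 z, deriv (ψ a) w = 0 := by
    filter_upwards [eventually_eventually_nhdsWithin.2 h0, self_mem_nhdsWithin] with z hz hzs
    rwa [isOpen_compl_singleton.nhdsWithin_eq hzs] at hz
  obtain ⟨t, ht1, ht2, ht3⟩ := (h1.and (h2.and (Main_eventually_mem hs))).exists
  obtain ⟨ε, hε, hball⟩ := Metric.eventually_nhds_iff_ball.1 (ht2.and ht1.eventually_analyticAt)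
  have hc : ∀ w ∈ Metric.ball t ε, ψ a w = ψ a t := fun w hw =>
    Metric.isOpen_ball.is_const_of_deriv_eq_zero (convex_ball t ε).isPreconnected
      (fun w hw => (hball w hw).2.differentiableAt.differentiableWithinAt) (fun w hw => (hball w hw).1) hw
      (Metric.mem_ball_self hε)
  have hne : a - algebraMap ℂ K (ψ a t) ≠ 0 := by
    intro h3
    rw [sub_eq_zero] at h3
    apply ha
    rw [h3]
    exact isAlgebraic_algebraMap _
  have h4 := h.ne_zero hne ht3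
  have h5 := h.sub a (algebraMap ℂ K (ψ a t)) ht3
  have h6 := h.const (ψ a t) t ht3
  have h7 : ∀ᶠ w in 𝓝[≠] t, w ∈ Metric.ball t ε := by
    have h8 : ∀ᶠ w in 𝓝 t, w ∈ Metric.ball t ε := Metric.ball_mem_nhds t hε
    exact h8.filter_mono nhdsWithin_le_nhds
  obtain ⟨w, hw4, hw5, hw6, hw7⟩ := (h4.and (h5.and (h6.and h7))).exists
  apply hw4
  rw [hw5]
  change ψ a w - ψ (algebraMap ℂ K (ψ a t)) w = 0
  rw [hw6, hc w hw7, sub_self]

theorem Ev.sum (h : Ev ψ) (F : ℕ → K) (n : ℕ) {s : ℂ} (hs : s ∈ puncturedDisc) :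
    ψ (∑ j ∈ Finset.range n, F j) =ᶠ[𝓝[≠] s] fun z => ∑ j ∈ Finset.range n, ψ (F j) z := by
  induction n with
  | zero =>
    filter_upwards [h.zero hs] with z hz
    rw [Finset.sum_range_zero, Finset.sum_range_zero, hz]
  | succ n ih =>
    filter_upwards [h.add (∑ j ∈ Finset.range n, F j) (F n) s hs, ih] with z h1 h2
    rw [Finset.sum_range_succ, Finset.sum_range_succ, h1, h2]

/-- The algebraic relation between two functions of a field of transcendence degree one. -/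
theorem exists_relation (hz : ∃ z : Fin 1 → K, IsTranscendenceBasis ℂ z) {ρ : K} (hρ : Transcendental ℂ ρ) (g : K) :
    ∃ P : Polynomial (Polynomial ℂ), P ≠ 0 ∧
      ∑ j ∈ Finset.range (P.natDegree + 1), Polynomial.aeval ρ (P.coeff j) * g ^ j = 0 := by
  obtain ⟨z, hz⟩ := hz
  have hind : AlgebraicIndependent ℂ (fun _ : Fin 1 => ρ) := by
    rw [algebraicIndependent_unique_type_iff]
    exact hρ
  have hb : IsTranscendenceBasis ℂ (fun _ : Fin 1 => ρ) :=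
    hind.isTranscendenceBasis_of_trdeg_le_of_finite hz.cardinalMk_eq_trdeg.ge
  have halg := hb.isAlgebraic
  obtain ⟨p, hp0, hp⟩ := halg.isAlgebraic g
  have hmem : ∀ q : Polynomial ℂ, Polynomial.aeval ρ q ∈ Algebra.adjoin ℂ (Set.range fun _ : Fin 1 => ρ) := by
    intro q
    rw [Set.range_const, Algebra.adjoin_singleton_eq_range_aeval]
    exact ⟨q, rfl⟩
  let φ : Polynomial ℂ →ₐ[ℂ] Algebra.adjoin ℂ (Set.range fun _ : Fin 1 => ρ) :=
    (Polynomial.aeval ρ).codRestrict _ hmem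
  have hφ : Function.Surjective φ := by
    rintro ⟨y, hy⟩
    have hy' := hy
    rw [Set.range_const, Algebra.adjoin_singleton_eq_range_aeval] at hy'
    obtain ⟨q, hq⟩ := hy'
    exact ⟨q, Subtype.ext hq⟩
  obtain ⟨P, hP⟩ := Polynomial.map_surjective φ.toRingHom hφ p
  refine ⟨P, ?_, ?_⟩
  · rintro rfl
    rw [Polynomial.map_zero] at hP
    exact hp0 hP.symm
  · rw [← hP, Polynomial.aeval_def, Polynomial.eval₂_map, Polynomial.eval₂_eq_sum_range] at hp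
    exact hp

theorem nevT_ev_le (hz : ∃ z : Fin 1 → K, IsTranscendenceBasis ℂ z) (h : Ev ψ) {ρ : K} (hρ : Transcendental ℂ ρ) {g : K}
    (hg : g ≠ 0) {R₁ : ℝ} (h1 : 0 < R₁) (h2 : R₁ < 1) :
    ∃ C : ℝ, ∀ x, Real.exp (-x) < R₁ → nevT (ψ g) R₁ x ≤ C * nevT (ψ ρ) R₁ x + C * (1 + |x|) := by
  obtain ⟨P, hP0, hP⟩ := exists_relation hz hρ g
  have hρ0 : ρ ≠ 0 := by
    rintro rfl
    exact hρ isAlgebraic_zero
  refine nevT_alg (h.meroPunct hg) (h.meroPunct hρ0) h1 h2 P ?_ hP0 ?_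
  · intro s hs0 hs1 j hj
    have hs := Main_mem hs0 hs1
    have h3 : Polynomial.aeval ρ (P.coeff j) ≠ 0 := fun h4 => hj ((transcendental_iff.1 hρ) _ h4)
    filter_upwards [h.ne_zero h3 hs, h.polyAeval ρ (P.coeff j) hs] with z h4 h5
    rwa [← h5]
  · intro s hs0 hs1
    have hs := Main_mem hs0 hs1
    have h3 := h.sum (fun j => Polynomial.aeval ρ (P.coeff j) * g ^ j) (P.natDegree + 1) hs
    rw [hP] at h3
    have h4 : ∀ j, ψ (Polynomial.aeval ρ (P.coeff j) * g ^ j) =ᶠ[𝓝[≠] s]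
        fun z => (P.coeff j).eval (ψ ρ z) * ψ g z ^ j := by
      intro j
      filter_upwards [h.mul (Polynomial.aeval ρ (P.coeff j)) (g ^ j) s hs, h.polyAeval ρ (P.coeff j) hs, h.pow g j hs]
        with z h5 h6 h7
      rw [h5, h6, h7]
    have h5 : ∀ᶠ z in 𝓝[≠] s, ∀ j ∈ Finset.range (P.natDegree + 1),
        ψ (Polynomial.aeval ρ (P.coeff j) * g ^ j) z = (P.coeff j).eval (ψ ρ z) * ψ g z ^ j :=
      (Finset.eventually_all _).2 fun j _ => h4 j
    filter_upwards [h3, h5, h.zero hs] with z h6 h7 h8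
    rw [← Finset.sum_congr rfl h7, ← h6, h8]

/-- One of the ratios of the pluricanonical forms is not constant. -/
theorem exists_transcendental (hz : ∃ z : Fin 1 → K, IsTranscendenceBasis ℂ z) {r : ℕ} {y : Fin (r + 1) → K}
    (h : Algebra.IsAlgebraic (IntermediateField.adjoin ℂ (Set.range y)) K) : ∃ i, Transcendental ℂ (y i) := by
  by_contra hcon
  push Not at hcon
  obtain ⟨z, hz⟩ := hz
  have h1 : Algebra.IsAlgebraic ℂ (IntermediateField.adjoin ℂ (Set.range y)) := by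
    refine IntermediateField.isAlgebraic_adjoin ?_
    rintro _ ⟨i, rfl⟩
    have h2 := hcon i
    rw [Transcendental, not_not] at h2
    exact h2.isIntegral
  have h3 : Algebra.IsAlgebraic ℂ K := Algebra.IsAlgebraic.trans ℂ (IntermediateField.adjoin ℂ (Set.range y)) K
  exact hz.1.transcendental 0 (h3.isAlgebraic _)

theorem pull_meroPunct [Algebra.EssFiniteType ℂ K] (h : Ev ψ) {f c a : K} (hf : f ≠ 0) (hc : c ≠ 0)
    (ha : Transcendental ℂ a) (m : ℕ) : MeroPunct 1 (pull ψ f c a m) where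
  mero z h1 h2 := pull_mero h f c a m (Main_mem h1 h2)
  ord z h1 h2 := by
    have hs := Main_mem h1 h2
    rw [meromorphicOrderAt_ne_top_iff_eventually_ne_zero (pull_mero h f c a m hs)]
    filter_upwards [h.ne_zero hf hs, h.ne_zero hc hs, h.deriv_ne ha hs] with w h3 h4 h5
    exact mul_ne_zero h3 (pow_ne_zero _ (mul_ne_zero h4 h5))

theorem PoleAtMost_mono {k : ℕ} {E : PrimeDivisorOver K k} {m p q : ℕ} (hpq : p ≤ q) {f : K} {ω : Form K k}
    (h : PoleAtMost p E m f ω) : PoleAtMost q E m f ω := by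
  obtain ⟨g, η, h1, h2, h3⟩ := h
  refine ⟨g, η, h1, h2, h3.trans ?_⟩
  have h4 : ((p : ℕ) : WithTop ℤ) ≤ ((q : ℕ) : WithTop ℤ) := by exact_mod_cast hpq
  exact add_le_add le_rfl h4

theorem negl_of_le {R₁ : ℝ} {T T' S : ℝ → ℝ} (hT : ∀ x, 0 ≤ T x) (h : Negl R₁ T' S)
    (hC : ∃ C : ℝ, ∀ x, Real.exp (-x) < R₁ → T' x ≤ C * T x + C * (1 + |x|)) : Negl R₁ T S := by
  obtain ⟨C, hC⟩ := hC
  intro ε hε
  set C' : ℝ := max C 0 with hC'
  have hC'0 : 0 ≤ C' := le_max_right _ _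
  have h1 : 0 < C' + 1 := by linarith
  obtain ⟨D, E, hE, hD⟩ := h (ε / (C' + 1)) (div_pos hε h1)
  refine ⟨ε + D, E, hE, fun x hx hxE => ?_⟩
  have h2 := hD x hx hxE
  have h3 := hC x hx
  have h4 : (0 : ℝ) ≤ 1 + |x| := by positivity
  have h5 : C * T x ≤ C' * T x := mul_le_mul_of_nonneg_right (le_max_left _ _) (hT x)
  have h6 : C * (1 + |x|) ≤ C' * (1 + |x|) := mul_le_mul_of_nonneg_right (le_max_left _ _) h4
  have h7 : ε / (C' + 1) * C' ≤ ε := by
    rw [div_mul_eq_mul_div, div_le_iff₀ h1]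
    nlinarith
  have h8 : ε / (C' + 1) * T' x ≤ ε / (C' + 1) * (C' * T x + C' * (1 + |x|)) :=
    mul_le_mul_of_nonneg_left (by linarith) (div_pos hε h1).le
  have h9 : ε / (C' + 1) * (C' * T x + C' * (1 + |x|)) = ε / (C' + 1) * C' * T x + ε / (C' + 1) * C' * (1 + |x|) := by
    ring
  have h10 : ε / (C' + 1) * C' * T x ≤ ε * T x := mul_le_mul_of_nonneg_right h7 (hT x)
  have h11 : ε / (C' + 1) * C' * (1 + |x|) ≤ ε * (1 + |x|) := mul_le_mul_of_nonneg_right h7 h4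
  have h12 : (ε + D) * (1 + |x|) = ε * (1 + |x|) + D * (1 + |x|) := by ring
  linarith

theorem negl_sum {ι : Type} {R₁ : ℝ} {T : ℝ → ℝ} (hT : ∀ x, 0 ≤ T x) (S : Finset ι) {F : ι → ℝ → ℝ}
    (h : ∀ b ∈ S, Negl R₁ T (F b)) : Negl R₁ T fun x => ∑ b ∈ S, F b x := by
  classical
  induction S using Finset.induction_on with
  | empty =>
    intro ε hε
    refine ⟨0, ∅, by simp, fun x _ _ => ?_⟩
    change ∑ b ∈ (∅ : Finset ι), F b x ≤ _
    rw [Finset.sum_empty, zero_mul, add_zero]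
    exact mul_nonneg hε.le (hT x)
  | insert b S hb ih =>
    intro ε hε
    obtain ⟨C₁, E₁, hE₁, h1⟩ := h b (Finset.mem_insert_self _ _) (ε / 2) (half_pos hε)
    obtain ⟨C₂, E₂, hE₂, h2⟩ := ih (fun c hc => h c (Finset.mem_insert_of_mem hc)) (ε / 2) (half_pos hε)
    refine ⟨C₁ + C₂, E₁ ∪ E₂, ?_, fun x hx hxE => ?_⟩
    · exact ((measure_union_le _ _).trans_lt (ENNReal.add_lt_top.2 ⟨lt_top_iff_ne_top.2 hE₁, lt_top_iff_ne_top.2 hE₂⟩)).ne
    · change ∑ b ∈ insert b S, F b x ≤ _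
      rw [Finset.sum_insert hb]
      have h3 := h1 x hx fun h => hxE (Or.inl h)
      have h4 := h2 x hx fun h => hxE (Or.inr h)
      simp only at h4
      linarith

theorem negl_const_mul {R₁ : ℝ} {T S S' : ℝ → ℝ} {C m : ℝ} (hm : 0 ≤ m) (h : Negl R₁ T S)
    (hT : ∀ x, 0 ≤ T x) (hS : ∀ x, Real.exp (-x) < R₁ → S' x ≤ C + m * S x) : Negl R₁ T S' := by
  intro ε hε
  have h1 : 0 < m + 1 := by linarith
  obtain ⟨D, E, hE, hD⟩ := h (ε / (m + 1)) (div_pos hε h1)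
  refine ⟨|C| + m * D, E, hE, fun x hx hxE => ?_⟩
  have h2 := hD x hx hxE
  have h3 := hS x hx
  have h4 : (1 : ℝ) ≤ 1 + |x| := by linarith [abs_nonneg x]
  have h5 : m * S x ≤ m * (ε / (m + 1) * T x + D * (1 + |x|)) := mul_le_mul_of_nonneg_left h2 hm
  have h6 : m * (ε / (m + 1)) ≤ ε := by
    rw [mul_div_assoc', div_le_iff₀ h1]
    nlinarith
  have h7 : m * (ε / (m + 1)) * T x ≤ ε * T x := mul_le_mul_of_nonneg_right h6 (hT x)
  have h8 : m * (ε / (m + 1) * T x + D * (1 + |x|)) = m * (ε / (m + 1)) * T x + m * D * (1 + |x|) := by ring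
  have h9 : C ≤ |C| * (1 + |x|) := by
    have := abs_nonneg C
    have := le_abs_self C
    nlinarith
  have h10 : (|C| + m * D) * (1 + |x|) = |C| * (1 + |x|) + m * D * (1 + |x|) := by ring
  linarith

/-- The characteristic function of the pull back of a pluricanonical form is small. -/
theorem nevT_pull [Algebra.EssFiniteType ℂ K] (hz : ∃ z : Fin 1 → K, IsTranscendenceBasis ℂ z) (h : Ev ψ) {m : ℕ}
    {f : K} (hf : f ≠ 0) {ω : Form K 1} (hω : ω ≠ 0) {a c : K} (ha : Transcendental ℂ a)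
    (hc : ω = Form.mk c fun _ => a) {B : PrimeDivisorOver K 1 → Prop}
    (hp : ∀ E, (¬ B E → PoleAtMost 0 E m f ω) ∧ (B E → PoleAtMost m E m f ω))
    (hB : ∀ s ∈ puncturedDisc, ∀ E, Under ψ s E → ¬ B E) {ρ : K} (hρ : Transcendental ℂ ρ) {R₁ : ℝ} (h1 : 0 < R₁)
    (h2 : R₁ < 1) : Negl R₁ (nevT (ψ ρ) R₁) (nevT (pull ψ f c a m) R₁) := by
  obtain ⟨S, C, hS, hb⟩ := exists_bound hz h hf hω (fun E => by
    by_cases hE : B E
    · exact (hp E).2 hE
    · exact PoleAtMost_mono (Nat.zero_le _) ((hp E).1 hE)) hc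
  have hm : MeroPunct 1 (pull ψ f c a m) := pull_meroPunct h hf (coef_ne_zero hω hc) ha m
  have h0 : ∀ s ∈ puncturedDisc, 0 ≤ meromorphicOrderAt (pull ψ f c a m) s := by
    intro s hs
    obtain ⟨E, hE⟩ := exists_under h hz hs
    exact order_pull hz h hs hE hω ((hp E).1 (hB s hs E hE)) hc
  have hSne : ∀ b ∈ S, b ≠ 0 := fun b hb h0 => hS (h0 ▸ hb)
  have hle : ∀ x, Real.exp (-x) < R₁ → nevT (pull ψ f c a m) R₁ x ≤
      C + m * ∑ b ∈ S, mean (fun z => Real.posLog ‖deriv (ψ b) z / ψ b z‖) x := fun x hx =>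
    nevT_le_logDeriv S hm h0 (fun b hb => h.meroPunct (hSne b hb)) hb h2 hx
  have hT : ∀ x, 0 ≤ nevT (ψ ρ) R₁ x := fun x => nevT_nonneg _ _ _
  have h3 : ∀ b ∈ S, Negl R₁ (nevT (ψ ρ) R₁) (mean fun z => Real.posLog ‖deriv (ψ b) z / ψ b z‖) := fun b hb =>
    negl_of_le hT ((h.meroPunct (hSne b hb)).logDeriv_negl h1 h2) (nevT_ev_le hz h hρ (hSne b hb) h1 h2)
  exact negl_const_mul (Nat.cast_nonneg m) (negl_sum hT S h3) hT hle

theorem punctMero_all [Algebra.EssFiniteType ℂ K] (hz : ∃ z : Fin 1 → K, IsTranscendenceBasis ℂ z) (h : Ev ψ)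
    {B : PrimeDivisorOver K 1 → Prop} (hgt : IsLogGeneralType B)
    (hB : ∀ s ∈ puncturedDisc, ∀ E, Under ψ s E → ¬ B E) (g : K) : PunctMero (ψ g) := by
  obtain ⟨m, hm, ω, hω, r, f, hf0, hp, halg⟩ := hgt
  obtain ⟨i, hi⟩ := exists_transcendental hz halg
  set ρ : K := f i / f 0 with hρ
  have hρ0 : ρ ≠ 0 := by
    intro h0
    rw [h0] at hi
    exact hi isAlgebraic_zero
  have hfi : f i ≠ 0 := by
    intro h0
    rw [hρ, h0, zero_div] at hρ0
    exact hρ0 rfl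
  obtain ⟨c, hc⟩ := exists_coef hz ω hi
  have hc0 : c ≠ 0 := coef_ne_zero hω hc
  set R₁ : ℝ := 1 / 2 with hR₁
  have h1 : 0 < R₁ := by norm_num [hR₁]
  have h2 : R₁ < 1 := by norm_num [hR₁]
  have hT : ∀ x, 0 ≤ nevT (ψ ρ) R₁ x := fun x => nevT_nonneg _ _ _
  have hmi : MeroPunct 1 (pull ψ (f i) c ρ m) := pull_meroPunct h hfi hc0 hi m
  have hm0 : MeroPunct 1 (pull ψ (f 0) c ρ m) := pull_meroPunct h hf0 hc0 hi m
  have hni : Negl R₁ (nevT (ψ ρ) R₁) (nevT (pull ψ (f i) c ρ m) R₁) :=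
    nevT_pull hz h hfi hω hi hc (hp i) hB hi h1 h2
  have hn0 : Negl R₁ (nevT (ψ ρ) R₁) (nevT (pull ψ (f 0) c ρ m) R₁) :=
    nevT_pull hz h hf0 hω hi hc (hp 0) hB hi h1 h2
  obtain ⟨D, hD⟩ := hm0.nevT_inv h1 h2
  have hprod : ∀ s : ℂ, 0 < ‖s‖ → ‖s‖ < 1 →
      ψ ρ =ᶠ[𝓝[≠] s] fun z => pull ψ (f i) c ρ m z * (pull ψ (f 0) c ρ m z)⁻¹ := by
    intro s hs0 hs1
    have hs := Main_mem hs0 hs1
    filter_upwards [h.div (f i) hf0 hs, h.ne_zero hc0 hs, h.deriv_ne hi hs] with z h3 h4 h5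
    rw [hρ, h3, pull, pull, ← hρ, mul_inv, mul_mul_mul_comm, mul_inv_cancel₀ (pow_ne_zero _ (mul_ne_zero h4 h5)), mul_one,
      div_eq_mul_inv]
  have hTle : ∀ x, Real.exp (-x) < R₁ → nevT (ψ ρ) R₁ x ≤
      nevT (pull ψ (f i) c ρ m) R₁ x + (nevT (pull ψ (f 0) c ρ m) R₁ x + D * (1 + |x|)) := by
    intro x hx
    rw [nevT_congr (h.meroPunct hρ0) (hmi.mul hm0.inv) h2 hprod hx]
    refine (nevT_mul_le hmi hm0.inv h2 hx).trans ?_
    have h3 := (abs_le.1 (hD x hx)).2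
    linarith
  obtain ⟨C₁, E₁, hE₁, h3⟩ := hni (1 / 4) (by norm_num)
  obtain ⟨C₂, E₂, hE₂, h4⟩ := hn0 (1 / 4) (by norm_num)
  have hE : volume (E₁ ∪ E₂) ≠ ⊤ :=
    ((measure_union_le _ _).trans_lt (ENNReal.add_lt_top.2 ⟨lt_top_iff_ne_top.2 hE₁, lt_top_iff_ne_top.2 hE₂⟩)).ne
  have hTb : ∀ x, Real.exp (-x) < R₁ → x ∉ E₁ ∪ E₂ → nevT (ψ ρ) R₁ x ≤ 2 * (C₁ + C₂ + D) * (1 + |x|) := by
    intro x hx hxE
    have h5 := h3 x hx fun h => hxE (Or.inl h)
    have h6 := h4 x hx fun h => hxE (Or.inr h)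
    have h7 := hTle x hx
    have h8 : 2 * (C₁ + C₂ + D) * (1 + |x|) = 2 * (C₁ * (1 + |x|)) + 2 * (C₂ * (1 + |x|)) + 2 * (D * (1 + |x|)) := by
      ring
    linarith
  by_cases hg : g = 0
  · subst hg
    refine ⟨fun _ => 0, MeromorphicAt.const 0 0, ?_⟩
    have h5 : ∀ᶠ z in 𝓝[≠] (0 : ℂ), z ∈ puncturedDisc := by
      have h6 : ∀ᶠ z in 𝓝 (0 : ℂ), z ∈ Metric.ball (0 : ℂ) 1 := Metric.ball_mem_nhds (0 : ℂ) one_pos
      filter_upwards [h6.filter_mono nhdsWithin_le_nhds, self_mem_nhdsWithin] with z h7 h8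
      exact ⟨h7, h8⟩
    filter_upwards [h5] with z hz
    exact h.zero hz
  · obtain ⟨C, hC⟩ := nevT_ev_le hz h hi hg h1 h2
    have hC' : ∀ x, C * nevT (ψ ρ) R₁ x ≤ |C| * nevT (ψ ρ) R₁ x := fun x =>
      mul_le_mul_of_nonneg_right (le_abs_self C) (hT x)
    refine punctMero_of_nevT h1 h2 (h.meroPunct hg) hE (C := |C| * (2 * (C₁ + C₂ + D)) + C) fun x hx hxE => ?_
    have h5 := hC x hx
    have h6 := mul_le_mul_of_nonneg_left (hTb x hx hxE) (abs_nonneg C)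
    have h7 := hC' x
    have h8 : (|C| * (2 * (C₁ + C₂ + D)) + C) * (1 + |x|) =
      |C| * (2 * (C₁ + C₂ + D) * (1 + |x|)) + C * (1 + |x|) := by ring
    linarith

end Pool.Agent.H62.LGC
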