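import Pool.Agent.H62.FC.Nev0

/-!
# LGC NevMul: the characteristic function of a product

`mean g x` is the average of `g` on the circle of radius `exp (-x)`, `cnt` the weighted counting function, `nevT` their sum
(`Pool/Agent/H62/FC/NevDefs.lean`, `Nev0.lean`).
HINTS: `mean_mono_of_eventually`: the points of the (compact) circle at which the inequality fails are finitely many; modify `g₁` there
(`Real.circleAverage_mono` and `Real.circleAverage_congr_codiscreteWithin`, or write the averages as integrals over `[0, 2π]`,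
`intervalIntegral.integral_mono_ae`, the set of the `θ` with `exp (-x) e^{iθ}` exceptional is countable).
`nevT_congr`: two times `mean_mono_of_eventually`, and `ordZ u s = ordZ v s` (`meromorphicOrderAt_congr`) in the annulus (`finsum_mem_congr`).
`nevT_mul_le`: `Real.posLog_mul`, `circleAverage_add`, and `max (-(a+b)) 0 ≤ max (-a) 0 + max (-b) 0`, `cnt_mono`, `cnt_add` (see the proof of
`MeroPunct.nevT_inv` in `Nev0.lean` for local finiteness, and `MeroPunct.mul`, `MeroPunct.circleIntegrable_posLog`).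
-/

set_option autoImplicit false

open Filter Topology MeasureTheory
open Pool.Agent.H92.GGL (ordZ)
open Pool.Agent.H62.FC

noncomputable section

namespace Pool.Agent.H62.LGC

variable {R₀ R₁ : ℝ}

theorem mean_mono_of_eventually {g₁ g₂ : ℂ → ℝ} {x : ℝ} (hx : Real.exp (-x) < R₀)
    (h1 : CircleIntegrable g₁ 0 (Real.exp (-x))) (h2 : CircleIntegrable g₂ 0 (Real.exp (-x)))
    (h : ∀ s : ℂ, 0 < ‖s‖ → ‖s‖ < R₀ → ∀ᶠ z in 𝓝[≠] s, g₁ z ≤ g₂ z) : mean g₁ x ≤ mean g₂ x := by
  have hr : 0 < Real.exp (-x) := Real.exp_pos _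
  have hcod : g₁ =ᶠ[codiscreteWithin (Metric.sphere (0 : ℂ) |Real.exp (-x)|)] fun z => min (g₁ z) (g₂ z) := by
    rw [Filter.EventuallyEq, Filter.Eventually, mem_codiscreteWithin_iff_forall_mem_nhdsNE]
    intro s hs
    rw [mem_sphere_zero_iff_norm, abs_of_pos hr] at hs
    filter_upwards [h s (by rw [hs]; exact hr) (by rw [hs]; exact hx)] with z hz
    left
    show g₁ z = min (g₁ z) (g₂ z)
    rw [min_eq_left hz]
  have hint : CircleIntegrable (fun z => min (g₁ z) (g₂ z)) 0 (Real.exp (-x)) :=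
    CircleIntegrable.congr_codiscreteWithin hcod h1
  unfold mean
  rw [Real.circleAverage_congr_codiscreteWithin hcod hr.ne']
  exact Real.circleAverage_mono hint h2 fun z _ => min_le_right _ _

private theorem ordZ_congr {u v : ℂ → ℂ} {s : ℂ} (h : u =ᶠ[𝓝[≠] s] v) : ordZ u s = ordZ v s := by
  unfold Pool.Agent.H92.GGL.ordZ
  rw [meromorphicOrderAt_congr h]

theorem nevT_congr {u v : ℂ → ℂ} (hu : MeroPunct R₀ u) (hv : MeroPunct R₀ v) (h : R₁ < R₀)
    (huv : ∀ s : ℂ, 0 < ‖s‖ → ‖s‖ < R₀ → u =ᶠ[𝓝[≠] s] v) {x : ℝ} (hx : Real.exp (-x) < R₁) :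
    nevT u R₁ x = nevT v R₁ x := by
  have hx0 : Real.exp (-x) < R₀ := hx.trans h
  unfold nevT
  congr 1
  · refine le_antisymm (mean_mono_of_eventually hx0 (hu.circleIntegrable_posLog hx0)
      (hv.circleIntegrable_posLog hx0) fun s h1 h2 => ?_)
      (mean_mono_of_eventually hx0 (hv.circleIntegrable_posLog hx0)
      (hu.circleIntegrable_posLog hx0) fun s h1 h2 => ?_)
    · filter_upwards [huv s h1 h2] with z hz
      rw [hz]
    · filter_upwards [huv s h1 h2] with z hz
      rw [hz]
  · unfold cnt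
    refine finsum_congr fun s => finsum_congr fun hs => ?_
    simp only [ordZ_congr (huv s ((Real.exp_pos _).trans hs.1) (hs.2.trans h))]

private theorem locFin_comp {w : ℂ → ℝ} (hw : LocFin R₀ w) {f : ℝ → ℝ} (hf : f 0 = 0) :
    LocFin R₀ (fun s => f (w s)) := by
  intro r b hr hb
  refine (hw r b hr hb).subset ?_
  rintro s ⟨h1, h2, h3⟩
  refine ⟨h1, h2, fun h => h3 ?_⟩
  change f (w s) = 0
  rw [h, hf]

private theorem locFin_add {w w' : ℂ → ℝ} (hw : LocFin R₀ w) (hw' : LocFin R₀ w') :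
    LocFin R₀ (fun s => w s + w' s) := by
  intro r b hr hb
  refine ((hw r b hr hb).union (hw' r b hr hb)).subset ?_
  rintro s ⟨h1, h2, h3⟩
  by_cases h : w s = 0
  · right
    refine ⟨h1, h2, fun h' => h3 ?_⟩
    change w s + w' s = 0
    rw [h, h', add_zero]
  · left
    exact ⟨h1, h2, h⟩

theorem nevT_mul_le {u v : ℂ → ℂ} (hu : MeroPunct R₀ u) (hv : MeroPunct R₀ v) (h : R₁ < R₀) {x : ℝ}
    (hx : Real.exp (-x) < R₁) : nevT (fun z => u z * v z) R₁ x ≤ nevT u R₁ x + nevT v R₁ x := by
  have hx0 : Real.exp (-x) < R₀ := hx.trans h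
  have hr : 0 < Real.exp (-x) := Real.exp_pos _
  have huv := hu.mul hv
  have e1 : mean (fun z => Real.posLog ‖u z * v z‖) x ≤
      mean (fun z => Real.posLog ‖u z‖) x + mean (fun z => Real.posLog ‖v z‖) x := by
    unfold mean
    rw [← Real.circleAverage_fun_add (hu.circleIntegrable_posLog hx0) (hv.circleIntegrable_posLog hx0)]
    refine Real.circleAverage_mono (huv.circleIntegrable_posLog hx0)
      ((hu.circleIntegrable_posLog hx0).add (hv.circleIntegrable_posLog hx0)) fun z _ => ?_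
    rw [norm_mul]
    exact Real.posLog_mul
  have hf : ∀ {w : ℂ → ℂ}, MeroPunct R₀ w → LocFin R₀ (fun s => max (-(ordZ w s : ℝ)) 0) := fun hw =>
    locFin_comp (f := fun t => max (-t) 0) hw.locFin (by simp)
  have e2 : cnt (fun s => max (-(ordZ (fun z => u z * v z) s : ℝ)) 0) R₁ (Real.exp (-x)) ≤
      cnt (fun s => max (-(ordZ u s : ℝ)) 0) R₁ (Real.exp (-x)) +
      cnt (fun s => max (-(ordZ v s : ℝ)) 0) R₁ (Real.exp (-x)) := by
    rw [← cnt_add h (hf hu) (hf hv) hr]
    refine cnt_mono h (hf huv) (locFin_add (hf hu) (hf hv)) hr fun s h1 h2 => ?_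
    have hs1 : 0 < ‖s‖ := hr.trans h1
    have hs2 : ‖s‖ < R₀ := h2.trans h
    have hord : ordZ (fun z => u z * v z) s = ordZ u s + ordZ v s := by
      have e : meromorphicOrderAt (fun z => u z * v z) s =
          meromorphicOrderAt u s + meromorphicOrderAt v s :=
        meromorphicOrderAt_mul (hu.mero s hs1 hs2) (hv.mero s hs1 hs2)
      unfold Pool.Agent.H92.GGL.ordZ
      rw [e, WithTop.untop₀_add (hu.ord s hs1 hs2) (hv.ord s hs1 hs2)]
    rw [hord]
    push_cast
    refine max_le ?_ (add_nonneg (le_max_right _ _) (le_max_right _ _))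
    rw [neg_add]
    exact add_le_add (le_max_left _ _) (le_max_left _ _)
  unfold nevT
  linarith

end Pool.Agent.H62.LGC
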